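import Pool.Agent.H92.Tilt.Fields

/-!
The valued fields of Q2 of MP_db217e_lc: the perfect hull of `k((t))`, and the maximal abelian extension
of `ℚ_p`.
-/

set_option autoImplicit false

namespace Pool.Agent.H22.QA

/-- Algebraic closure of the field of Laurent series over `k`. -/
abbrev LACk (k : Type) [Field k] : Type := AlgebraicClosure (LaurentSeries k)

/-- The perfect hull of the Laurent series field `k((t))` (`k` of characteristic `p`): the elements `x` of
the algebraic closure with `x ^ (p ^ n)` in `k((t))` for some `n`. -/
noncomputable def FPerfK (k : Type) [Field k] :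
    IntermediateField (LaurentSeries k) (LACk k) :=
  perfectClosure (LaurentSeries k) (LACk k)

/-- The valuation ring of the perfect hull: `x` with `x ^ (p ^ n)` a power series, some `n`. -/
def OPerfK (p : ℕ) (k : Type) [Field k] : Set (FPerfK k) :=
  {x : FPerfK k | ∃ (n : ℕ) (f : PowerSeries k),
    (x : LACk k) ^ p ^ n = algebraMap (LaurentSeries k) (LACk k) (f : LaurentSeries k)}

/-- The element `t`. -/
noncomputable def tPerfK (k : Type) [Field k] : FPerfK k :=
  algebraMap (LaurentSeries k) (FPerfK k) ((PowerSeries.X : PowerSeries k) : LaurentSeries k)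

/-- The maximal abelian extension of `ℚ_p`: the compositum, in the algebraic closure, of all
finite Galois extensions of `ℚ_p` with commutative Galois group. -/
noncomputable def QAb (p : ℕ) [Fact p.Prime] : IntermediateField ℚ_[p] (PadicAlgCl p) :=
  ⨆ L : {L : IntermediateField ℚ_[p] (PadicAlgCl p) //
    FiniteDimensional ℚ_[p] L ∧ IsGalois ℚ_[p] L ∧ ∀ σ τ : L ≃ₐ[ℚ_[p]] L, σ * τ = τ * σ}, L.1

end Pool.Agent.H22.QA
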