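import Pool.Agent.H92.Tilt.Tower

/-!
Truncated towers over a field `k` (MP_db217e_lc, Q2): the ring `k[t^(1/p^∞)]/(t)`. Two towers over `k` are
isomorphic (same proof as for the prime field in `Pool.Agent.H92.Tilt.Tower`).
-/

set_option autoImplicit false

namespace Pool.Agent.H22.QA

open Polynomial Pool.Agent.H92.Tilt

/-- The truncated ring `k[t^(1/p^∞)] / (t)` with the elements `ρ n = t^(1/p^n)`. -/
structure TowerK (p : ℕ) (k : Type*) [Field k] (R : Type*) [CommRing R] [Algebra k R]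
    (ρ : ℕ → R) : Prop where
  pow : ∀ n, ρ (n + 1) ^ p = ρ n
  surj : ∀ x : R, ∃ (n : ℕ) (Q : Polynomial k), x = aeval (ρ n) Q
  ker : ∀ (n : ℕ) (Q : Polynomial k), aeval (ρ n) Q = 0 ↔ ∀ i < p ^ n, Q.coeff i = 0

variable {k : Type*} [Field k]

private theorem TowerK.pow' {p : ℕ} {R : Type*} [CommRing R] [Algebra k R] {ρ : ℕ → R}
    (h : TowerK p k R ρ) (i m : ℕ) : ρ (i + m) ^ p ^ m = ρ i := by
  induction m with
  | zero => simp
  | succ m ih =>
    rw [← ih, ← h.pow (i + m), ← pow_mul, ← pow_succ', add_assoc]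

private theorem towerK_pol {p : ℕ} {R R' : Type*} [CommRing R] [CommRing R'] [Algebra k R]
    [Algebra k R'] {ρ : ℕ → R} {ρ' : ℕ → R'} (h : TowerK p k R ρ) (h' : TowerK p k R' ρ')
    (P : MvPolynomial ℕ k) :
    ∃ n0 : ℕ, ∀ n, n0 ≤ n → ∃ Q : Polynomial k, MvPolynomial.aeval ρ P = aeval (ρ n) Q ∧
      MvPolynomial.aeval ρ' P = aeval (ρ' n) Q := by
  induction P using MvPolynomial.induction_on with
  | C a =>
    refine ⟨0, fun n _ => ⟨C a, ?_, ?_⟩⟩
    · simp
    · simp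
  | add P P' ih ih' =>
    obtain ⟨n0, hn0⟩ := ih
    obtain ⟨n1, hn1⟩ := ih'
    refine ⟨max n0 n1, fun n hn => ?_⟩
    obtain ⟨Q, hQ, hQ'⟩ := hn0 n (le_trans (le_max_left _ _) hn)
    obtain ⟨Q1, hQ1, hQ1'⟩ := hn1 n (le_trans (le_max_right _ _) hn)
    exact ⟨Q + Q1, by rw [map_add, map_add, hQ, hQ1], by rw [map_add, map_add, hQ', hQ1']⟩
  | mul_X P i ih =>
    obtain ⟨n0, hn0⟩ := ih
    refine ⟨max n0 i, fun n hn => ?_⟩
    obtain ⟨Q, hQ, hQ'⟩ := hn0 n (le_trans (le_max_left _ _) hn)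
    obtain ⟨m, rfl⟩ := Nat.exists_eq_add_of_le (le_trans (le_max_right _ _) hn)
    refine ⟨Q * X ^ p ^ m, ?_, ?_⟩
    · rw [map_mul, map_mul, hQ, MvPolynomial.aeval_X, map_pow, aeval_X, h.pow' i m]
    · rw [map_mul, map_mul, hQ', MvPolynomial.aeval_X, map_pow, aeval_X, h'.pow' i m]

private theorem TowerK.surj_aeval {p : ℕ} {R : Type*} [CommRing R] [Algebra k R] {ρ : ℕ → R}
    (h : TowerK p k R ρ) :
    Function.Surjective (MvPolynomial.aeval ρ : MvPolynomial ℕ k →ₐ[k] R).toRingHom := by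
  intro x
  obtain ⟨n, Q, rfl⟩ := h.surj x
  refine ⟨aeval (MvPolynomial.X n) Q, ?_⟩
  change (MvPolynomial.aeval ρ) (aeval (MvPolynomial.X n) Q) = _
  rw [← Polynomial.aeval_algHom_apply, MvPolynomial.aeval_X]

private theorem towerK_ker {p : ℕ} {R R' : Type*} [CommRing R] [CommRing R'] [Algebra k R]
    [Algebra k R'] {ρ : ℕ → R} {ρ' : ℕ → R'} (h : TowerK p k R ρ) (h' : TowerK p k R' ρ') :
    RingHom.ker (MvPolynomial.aeval ρ : MvPolynomial ℕ k →ₐ[k] R).toRingHom =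
      RingHom.ker (MvPolynomial.aeval ρ' : MvPolynomial ℕ k →ₐ[k] R').toRingHom := by
  ext P
  rw [RingHom.mem_ker, RingHom.mem_ker]
  change MvPolynomial.aeval ρ P = 0 ↔ MvPolynomial.aeval ρ' P = 0
  obtain ⟨n0, hn0⟩ := towerK_pol h h' P
  obtain ⟨Q, hQ, hQ'⟩ := hn0 n0 le_rfl
  rw [hQ, hQ', h.ker, h'.ker]

theorem towerK_equiv {p : ℕ} {R R' : Type*} [CommRing R] [CommRing R'] [Algebra k R]
    [Algebra k R'] {ρ : ℕ → R} {ρ' : ℕ → R'} (h : TowerK p k R ρ) (h' : TowerK p k R' ρ') :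
    ∃ f : R ≃+* R', ∀ n, f (ρ n) = ρ' n := by
  let E := RingHom.quotientKerEquivOfSurjective h.surj_aeval
  let E' := RingHom.quotientKerEquivOfSurjective h'.surj_aeval
  refine ⟨(E.symm.trans (Ideal.quotEquivOfEq (towerK_ker h h'))).trans E', fun n => ?_⟩
  have h1 : E (Ideal.Quotient.mk _ (MvPolynomial.X n)) = ρ n := by
    change (MvPolynomial.aeval ρ) (MvPolynomial.X n) = _
    rw [MvPolynomial.aeval_X]
  have h2 : E' (Ideal.Quotient.mk _ (MvPolynomial.X n)) = ρ' n := by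
    change (MvPolynomial.aeval ρ') (MvPolynomial.X n) = _
    rw [MvPolynomial.aeval_X]
  have h3 : E.symm (ρ n) = Ideal.Quotient.mk _ (MvPolynomial.X n) := by
    rw [RingEquiv.symm_apply_eq, h1]
  simp only [RingEquiv.trans_apply, h3, Ideal.quotEquivOfEq_mk, h2]

/-- So truth at `ρ N` is the same in all towers over `k`. -/
theorem towerK_sem {p : ℕ} {R R' : Type*} [CommRing R] [CommRing R'] [Algebra k R]
    [Algebra k R'] {ρ : ℕ → R} {ρ' : ℕ → R'} (h : TowerK p k R ρ) (h' : TowerK p k R' ρ')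
    (N c : ℕ) :
    semTr c (fun n => if n = 0 then ρ N else 0) ↔ semTr c (fun n => if n = 0 then ρ' N else 0) := by
  obtain ⟨f, hf⟩ := towerK_equiv h h'
  rw [semTr_equiv f]
  have : (fun n => f (if n = 0 then ρ N else 0)) = fun n => if n = 0 then ρ' N else 0 := by
    funext n
    split_ifs
    · exact hf N
    · exact map_zero f
  rw [this]

/-- Truth of the truncated formula `c` at level `N` (the same in all towers over `k`). -/
def TowTrueK (p : ℕ) (k : Type) [Field k] (N c : ℕ) : Prop :=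
  ∀ (R : Type) [CommRing R] [Algebra k R] (ρ : ℕ → R), TowerK p k R ρ →
    semTr c (fun n => if n = 0 then ρ N else 0)

theorem towTrueK_iff {p : ℕ} {k : Type} [Field k] {R : Type} [CommRing R] [Algebra k R]
    {ρ : ℕ → R} (h : TowerK p k R ρ) (N c : ℕ) :
    TowTrueK p k N c ↔ semTr c (fun n => if n = 0 then ρ N else 0) := by
  constructor
  · intro h1
    exact h1 R ρ h
  · intro h1 R' _ _ ρ' h'
    exact (towerK_sem h h' N c).1 h1

end Pool.Agent.H22.QA
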