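import Pool.Agent.H92.Tilt.FTow
import Pool.Agent.H22.QA.FPKk
import Pool.Agent.H22.QA.TowerA

/-!
The truncation of the package of `FPerfK 𝕜` is a tower over the perfect field `𝕜`.
-/

set_option autoImplicit false

namespace Pool.Agent.H22.QA

open Polynomial Pool.Agent.H92.Tilt

namespace FTowK

variable {p : ℕ} [Fact p.Prime] {𝕜 : Type} [Field 𝕜]

/-- The embedding of Laurent series in the package. -/
noncomputable def phi (M : Pk p) (i : FPerfK 𝕜 ≃+* M.K) : LaurentSeries 𝕜 →+* M.Om :=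
  M.K.subtype.comp (i.toRingHom.comp (algebraMap (LaurentSeries 𝕜) (FPerfK 𝕜)))

theorem phi_apply (M : Pk p) (i : FPerfK 𝕜 ≃+* M.K) (f : LaurentSeries 𝕜) :
    phi M i f = (i (algebraMap (LaurentSeries 𝕜) (FPerfK 𝕜) f) : M.Om) := rfl

/-- The embedding of the constants. -/
noncomputable def k0 (M : Pk p) (i : FPerfK 𝕜 ≃+* M.K) : 𝕜 →+* M.Om :=
  (phi M i).comp (HahnSeries.C : 𝕜 →+* LaurentSeries 𝕜)

variable {M : Pk p} {i : FPerfK 𝕜 ≃+* M.K}

theorem phi_memO (hO : ∀ x, (i x : M.Om) ∈ M.O ↔ x ∈ OPerfK p 𝕜) (f : LaurentSeries 𝕜) :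
    phi M i f ∈ M.O ↔ ∃ g : PowerSeries 𝕜, (g : LaurentSeries 𝕜) = f := by
  rw [phi_apply, hO]
  constructor
  · rintro ⟨n, g, hg⟩
    have h1 : algebraMap (LaurentSeries 𝕜) (LACk 𝕜) (f ^ p ^ n) =
        algebraMap (LaurentSeries 𝕜) (LACk 𝕜) (g : LaurentSeries 𝕜) := by
      rw [← hg, map_pow]
      rfl
    have h2 : f ^ p ^ n = (g : LaurentSeries 𝕜) :=
      (algebraMap (LaurentSeries 𝕜) (LACk 𝕜)).injective h1
    rw [← LaurentSeries.val_le_one_iff_eq_coe]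
    have h3 : Valued.v (f ^ p ^ n) ≤ (1 : WithZero (Multiplicative ℤ)) := by
      rw [LaurentSeries.val_le_one_iff_eq_coe]
      exact ⟨g, h2.symm⟩
    rw [map_pow] at h3
    exact (pow_le_one_iff (pow_ne_zero n (Fact.out : p.Prime).ne_zero)).1 h3
  · rintro ⟨g, rfl⟩
    exact ⟨0, g, by rw [pow_zero, pow_one]; rfl⟩

theorem phi_X (ht : (i (tPerfK 𝕜) : M.Om) = M.t) :
    phi M i ((PowerSeries.X : PowerSeries 𝕜) : LaurentSeries 𝕜) = M.t := by
  rw [← ht]; rfl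

theorem key (hO : ∀ x, (i x : M.Om) ∈ M.O ↔ x ∈ OPerfK p 𝕜)
    (ht : (i (tPerfK 𝕜) : M.Om) = M.t)
    (n : ℕ) (y : M.Om) (f : PowerSeries 𝕜)
    (hy : y ^ p ^ n = phi M i (f : LaurentSeries 𝕜)) :
    (∃ z ∈ M.O, y = M.t * z) ↔ (PowerSeries.X : PowerSeries 𝕜) ^ p ^ n ∣ f := by
  constructor
  · rintro ⟨z, hz, rfl⟩
    have h1 : phi M i ((f : LaurentSeries 𝕜) /
        ((PowerSeries.X : PowerSeries 𝕜) : LaurentSeries 𝕜) ^ p ^ n) = z ^ p ^ n := by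
      rw [map_div₀, map_pow, phi_X ht, ← hy, mul_pow, mul_div_cancel_left₀]
      exact pow_ne_zero _ M.t0
    have h2 := (phi_memO (M := M) (i := i) hO _).1 (by rw [h1]; exact pow_mem hz _)
    obtain ⟨g, hg⟩ := h2
    refine ⟨g, ?_⟩
    have h3 : ((PowerSeries.X : PowerSeries 𝕜) : LaurentSeries 𝕜) ^ p ^ n ≠ 0 := by
      apply pow_ne_zero
      intro h0
      have := phi_X (M := M) (i := i) ht
      rw [h0, map_zero] at this
      exact M.t0 this.symm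
    rw [eq_div_iff h3] at hg
    apply HahnSeries.ofPowerSeries_injective (Γ := ℤ)
    rw [map_mul, map_pow, mul_comm]
    exact hg.symm
  · rintro ⟨g, rfl⟩
    have h1 : (y / M.t) ^ p ^ n = phi M i (g : LaurentSeries 𝕜) := by
      rw [div_pow, hy]
      have h2 : (((PowerSeries.X : PowerSeries 𝕜) ^ p ^ n * g : PowerSeries 𝕜) :
          LaurentSeries 𝕜) =
          ((PowerSeries.X : PowerSeries 𝕜) : LaurentSeries 𝕜) ^ p ^ n *
            (g : LaurentSeries 𝕜) := by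
        simp
      rw [h2, map_mul, map_pow, phi_X ht, mul_div_cancel_left₀]
      exact pow_ne_zero _ M.t0
    refine ⟨y / M.t, ?_, ?_⟩
    · apply FTowAux.memO_of_pow (FTowAux.ne_zero_pow (p := p) n)
      rw [h1]
      exact (phi_memO hO _).2 ⟨g, rfl⟩
    · rw [mul_div_cancel₀ _ M.t0]

theorem k0_mem (hO : ∀ x, (i x : M.Om) ∈ M.O ↔ x ∈ OPerfK p 𝕜) (a : 𝕜) : k0 M i a ∈ M.OK := by
  refine ⟨?_, ?_⟩
  · exact Subtype.mem (i (algebraMap (LaurentSeries 𝕜) (FPerfK 𝕜) (HahnSeries.C a)))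
  · refine (phi_memO hO _).2 ⟨PowerSeries.C a, ?_⟩
    exact HahnSeries.ofPowerSeries_C a

theorem phi_ps (ht : (i (tPerfK 𝕜) : M.Om) = M.t) (Q : Polynomial 𝕜) :
    phi M i (((Q : PowerSeries 𝕜)) : LaurentSeries 𝕜) = Q.eval₂ (k0 M i) M.t := by
  let ψ : Polynomial 𝕜 →+* M.Om := (phi M i).comp ((HahnSeries.ofPowerSeries ℤ 𝕜).comp
    (Polynomial.coeToPowerSeries.ringHom (R := 𝕜)))
  have h1 : ψ = Polynomial.eval₂RingHom (k0 M i) M.t := by
    apply Polynomial.ringHom_ext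
    · intro a
      simp only [Polynomial.coe_eval₂RingHom, Polynomial.eval₂_C]
      show phi M i ((HahnSeries.ofPowerSeries ℤ 𝕜) ((Polynomial.C a : Polynomial 𝕜) : PowerSeries 𝕜)) = _
      rw [Polynomial.coe_C, HahnSeries.ofPowerSeries_C]
      rfl
    · have h2 : ψ X = phi M i ((PowerSeries.X : PowerSeries 𝕜) :
          LaurentSeries 𝕜) := by
        simp [ψ]
      rw [h2, phi_X ht]
      simp
  exact congrArg (fun f : Polynomial 𝕜 →+* M.Om => f Q) h1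

section frob

variable [CharP 𝕜 p]

theorem evalk_pow (x : M.Om) (n : ℕ) (Q : Polynomial 𝕜) :
    (Q.eval₂ (k0 M i) x) ^ p ^ n =
      (Q.map (iterateFrobenius 𝕜 p n)).eval₂ (k0 M i) (x ^ p ^ n) := by
  have h1 : (iterateFrobenius M.Om p n) (Q.eval₂ (k0 M i) x) =
      (Q.map (iterateFrobenius 𝕜 p n)).eval₂ (k0 M i) (iterateFrobenius M.Om p n x) := by
    rw [Polynomial.hom_eval₂, Polynomial.eval₂_map]
    congr 1
    ext a
    simp [iterateFrobenius_def]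
  simpa [iterateFrobenius_def] using h1

/-- Every element of the truncation is a polynomial in `ρ n`. -/
theorem exists_trunc [PerfectRing 𝕜 p] (f : PowerSeries 𝕜) (n : ℕ) : ∃ Q : Polynomial 𝕜,
    (PowerSeries.X : PowerSeries 𝕜) ^ p ^ n ∣
      f - ((Q.map (iterateFrobenius 𝕜 p n) : Polynomial 𝕜) : PowerSeries 𝕜) := by
  have hsurj : Function.Surjective (iterateFrobenius 𝕜 p n) :=
    (bijective_iterateFrobenius 𝕜 p n).2
  obtain ⟨Q, hQ⟩ := Polynomial.map_surjective _ hsurj (PowerSeries.trunc (p ^ n) f)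
  refine ⟨Q, ?_⟩
  rw [hQ, PowerSeries.X_pow_dvd_iff]
  intro m hm
  rw [map_sub, Polynomial.coeff_coe, PowerSeries.coeff_trunc, if_pos hm, sub_self]

end frob

/-- The constants in the valuation ring of the package. -/
noncomputable def kO (hO : ∀ x, (i x : M.Om) ∈ M.O ↔ x ∈ OPerfK p 𝕜) : 𝕜 →+* M.OK :=
  (k0 M i).codRestrict M.OK (k0_mem hO)

theorem coe_eval (hO : ∀ x, (i x : M.Om) ∈ M.O ↔ x ∈ OPerfK p 𝕜) {x : M.Om} (h : x ∈ M.OK)
    (Q : Polynomial 𝕜) :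
    ((Q.eval₂ (kO hO) (⟨x, h⟩ : M.OK) : M.OK) : M.Om) = Q.eval₂ (k0 M i) x := by
  have := Polynomial.hom_eval₂ Q (kO hO) M.OK.subtype ⟨x, h⟩
  rw [show ((Polynomial.eval₂ (kO hO) (⟨x, h⟩ : M.OK) Q : M.OK) : M.Om) =
    M.OK.subtype (Polynomial.eval₂ (kO hO) (⟨x, h⟩ : M.OK) Q) from rfl, this]
  rfl

theorem eval_memOK (hO : ∀ x, (i x : M.Om) ∈ M.O ↔ x ∈ OPerfK p 𝕜) {x : M.Om} (h : x ∈ M.OK)
    (Q : Polynomial 𝕜) : Q.eval₂ (k0 M i) x ∈ M.OK := by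
  rw [← coe_eval hO h]
  exact Subtype.mem _

/-- The constants in the truncation. -/
noncomputable def kT (hO : ∀ x, (i x : M.Om) ∈ M.O ↔ x ∈ OPerfK p 𝕜) : 𝕜 →+* M.Tr :=
  (Ideal.Quotient.mk (Ideal.span {M.tO})).comp (kO hO)

theorem eval_cls (hO : ∀ x, (i x : M.Om) ∈ M.O ↔ x ∈ OPerfK p 𝕜) {x : M.Om} (h : x ∈ M.OK)
    (Q : Polynomial 𝕜) :
    Q.eval₂ (kT hO) (M.cls x) = M.cls (Q.eval₂ (k0 M i) x) := by
  rw [FTowAux.cls_eq_mk h, FTowAux.cls_eq_mk (eval_memOK hO h Q)]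
  have h1 : (⟨Q.eval₂ (k0 M i) x, eval_memOK hO h Q⟩ : M.OK) =
      Q.eval₂ (kO hO) (⟨x, h⟩ : M.OK) :=
    Subtype.ext (coe_eval hO h Q).symm
  rw [h1, Polynomial.hom_eval₂]
  rfl

end FTowK

open FTowK

theorem ftowK (p : ℕ) [Fact p.Prime] (𝕜 : Type) [Field 𝕜] [CharP 𝕜 p] [PerfectRing 𝕜 p]
    (M : Pk p) (i : FPerfK 𝕜 ≃+* M.K)
    (hO : ∀ x, (i x : M.Om) ∈ M.O ↔ x ∈ OPerfK p 𝕜) (ht : (i (tPerfK 𝕜) : M.Om) = M.t)
    (s : ℕ → M.Om) (h0 : s 0 = M.t) (h1 : ∀ n, s (n + 1) ^ p = s n) :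
    ∃ _ : Algebra 𝕜 M.Tr, TowerK p 𝕜 M.Tr (fun n => M.cls (s n)) := by
  have hpow : ∀ n, s n ^ p ^ n = M.t := by
    intro n
    induction n with
    | zero => rw [pow_zero, pow_one, h0]
    | succ n ih => rw [pow_succ', pow_mul, h1, ih]
  have hK : ∀ n, s n ∈ M.K := by
    intro n
    induction n with
    | zero => rw [h0]; exact M.t_mem_K
    | succ n ih => exact M.W_K.pcl _ (by rw [h1]; exact ih)
  have hsO : ∀ n, s n ∈ M.O := fun n =>
    FTowAux.memO_of_pow (FTowAux.ne_zero_pow (p := p) n) (by rw [hpow]; exact M.t_mem)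
  have hOK : ∀ n, s n ∈ M.OK := fun n => ⟨hK n, hsO n⟩
  have hzero : (0 : M.Om) ∈ M.OK := M.OK.zero_mem
  let A : Algebra 𝕜 M.Tr := (kT hO).toAlgebra
  refine ⟨A, ?_⟩
  have hae : ∀ (x : M.Tr) (Q : Polynomial 𝕜), aeval x Q = Q.eval₂ (kT hO) x := fun x Q => rfl
  refine ⟨?_, ?_, ?_⟩
  · intro n
    show M.cls (s (n + 1)) ^ p = M.cls (s n)
    rw [FTowAux.cls_eq_mk (hOK (n + 1)), FTowAux.cls_eq_mk (hOK n), ← map_pow]
    congr 1
    apply Subtype.ext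
    exact h1 n
  · intro x
    obtain ⟨y, hy, rfl⟩ := M.cls_surj x
    obtain ⟨z, hz⟩ := i.surjective ⟨y, hy.1⟩
    have hzO : z ∈ OPerfK p 𝕜 := by
      rw [← hO, hz]
      exact hy.2
    obtain ⟨n, f, hf⟩ := hzO
    have hzf : z ^ p ^ n = algebraMap (LaurentSeries 𝕜) (FPerfK 𝕜)
        (f : LaurentSeries 𝕜) := by
      apply Subtype.ext
      exact hf
    have hyf : y ^ p ^ n = phi M i (f : LaurentSeries 𝕜) := by
      rw [phi_apply, ← hzf, map_pow, hz]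
      rfl
    obtain ⟨Q, hQ⟩ := exists_trunc (p := p) f n
    refine ⟨n, Q, ?_⟩
    rw [hae, eval_cls hO (hOK n), M.cls_eq hy (eval_memOK hO (hOK n) Q)]
    apply (key hO ht n _ _ _).2 hQ
    rw [sub_pow_char_pow, hyf, evalk_pow, hpow, ← phi_ps ht, ← map_sub]
    congr 1
    simp
  · intro n Q
    rw [hae, eval_cls hO (hOK n), ← M.cls_zero, M.cls_eq (eval_memOK hO (hOK n) Q) hzero]
    simp only [sub_zero]
    rw [key hO ht n _ ((Q.map (iterateFrobenius 𝕜 p n) : Polynomial 𝕜) : PowerSeries 𝕜)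
      (by rw [evalk_pow, hpow, phi_ps ht]), PowerSeries.X_pow_dvd_iff]
    have hinj : Function.Injective (iterateFrobenius 𝕜 p n) := (iterateFrobenius 𝕜 p n).injective
    constructor
    · intro h m hm
      have := h m hm
      rw [Polynomial.coeff_coe, Polynomial.coeff_map] at this
      exact hinj (by rw [this, map_zero])
    · intro h m hm
      rw [Polynomial.coeff_coe, Polynomial.coeff_map, h m hm, map_zero]

end Pool.Agent.H22.QA
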