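import Pool.Agent.H22.QA.MainMu
import Pool.Agent.H22.KW.Top

/-!
Converse transfer for the maximal abelian extension of `ℚ_p`: `mainMu` and the local Kronecker-Weber theorem.
-/

set_option autoImplicit false

namespace Pool.Agent.H22.QA

open Pool.Agent.H92.Tilt

theorem qab_eq (p : ℕ) [Fact p.Prime] : QAb p = KMu p := Pool.Agent.H22.KW.kw p

theorem mainAb (p : ℕ) [Fact p.Prime] :
    DecidableTheory 0 (QAb p) (OPadic p (QAb p)) Fin.elim0 →
      DecidableTheory 1 (FPerfK (AlgebraicClosure (ZMod p))) (OPerfK p (AlgebraicClosure (ZMod p)))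
        (fun _ => tPerfK (AlgebraicClosure (ZMod p))) := by
  rw [qab_eq]
  exact mainMu p

end Pool.Agent.H22.QA
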