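import Pool.Agent.H22.QA.SemU
import Pool.Agent.H55.Tilt.KCyc

/-!
The field generated by all roots of unity as the union of the fields `U(ζ_(p^n))`.
-/

set_option autoImplicit false

namespace Pool.Agent.H22.QA

open Polynomial Pool.Agent.H92.Tilt Pool.Agent.H55.Tilt

open scoped IntermediateField

variable {p : ℕ} [hp : Fact p.Prime]

/-- The field `U(a)`. -/
noncomputable def UA (a : PadicAlgCl p) : IntermediateField (UU p) (PadicAlgCl p) :=
  IntermediateField.adjoin (UU p) {a}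

theorem mem_UA_self (a : PadicAlgCl p) : a ∈ UA a :=
  IntermediateField.subset_adjoin _ _ rfl

theorem mem_UA_of_UU (a : PadicAlgCl p) {x : PadicAlgCl p} (hx : x ∈ UU p) : x ∈ UA a :=
  IntermediateField.algebraMap_mem (UA a) (⟨x, hx⟩ : UU p)

theorem UA_le {a b : PadicAlgCl p} (h : a ∈ UA b) : UA a ≤ UA b := by
  unfold UA
  rw [IntermediateField.adjoin_simple_le_iff]
  exact h

theorem UA_poly (a x : PadicAlgCl p) (hx : x ∈ UA a) :
    ∃ P : Polynomial (UU p), aeval a P = x := by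
  have halg : IsAlgebraic (UU p) a := (Algebra.IsAlgebraic.isAlgebraic (R := ℚ_[p]) a).extendScalars
    (algebraMap ℚ_[p] (UU p)).injective
  have h1 : x ∈ (UA a).toSubalgebra := hx
  unfold UA at h1
  rw [IntermediateField.adjoin_simple_toSubalgebra_of_isAlgebraic halg,
    Algebra.adjoin_singleton_eq_range_aeval] at h1
  obtain ⟨P, hP⟩ := h1
  exact ⟨P, hP⟩

theorem UA_poly_lt (a x : PadicAlgCl p) (hx : x ∈ UA a) (q : Polynomial (UU p))
    (hq : q.Monic) (hqa : aeval a q = 0) (hq0 : 0 < q.natDegree) :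
    ∃ P : Polynomial (UU p), P.natDegree < q.natDegree ∧ aeval a P = x := by
  obtain ⟨P, hP⟩ := UA_poly a x hx
  refine ⟨P %ₘ q, natDegree_modByMonic_lt P hq ?_, ?_⟩
  · rintro rfl
    simp at hq0
  · rw [← hP]
    have := Polynomial.modByMonic_add_div P q
    conv_rhs => rw [← this]
    rw [map_add, map_mul, hqa, zero_mul, add_zero]

section

variable {ζ : ℕ → PadicAlgCl p} (hζ : ∀ n, IsPrimitiveRoot (ζ n) (p ^ (n + 1)))
  (hpow : ∀ n, ζ (n + 1) ^ p = ζ n)

include hζ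

theorem zeta_mem_KMu (n : ℕ) : ζ n ∈ KMu p :=
  IntermediateField.subset_adjoin _ _ ⟨p ^ (n + 1), pow_pos hp.out.pos _, (hζ n).pow_eq_one⟩

omit hζ in
theorem zeta_mem_UA (n : ℕ) : ζ n ∈ UA (ζ n - 1) := by
  have := add_mem (mem_UA_self (ζ n - 1)) (one_mem (UA (ζ n - 1)))
  rwa [sub_add_cancel] at this

/-- Expansion in powers of `ζ n - 1`. -/
theorem zeta_sum (n : ℕ) (x : PadicAlgCl p) (hx : x ∈ UA (ζ n - 1)) :
    ∃ c : ℕ → PadicAlgCl p, (∀ i, c i ∈ UU p) ∧
      x = ∑ i ∈ Finset.range ((p - 1) * p ^ n), c i * (ζ n - 1) ^ i := by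
  have hdeg : ((cyclotomic (p ^ (n + 1)) (UU p)).comp (X + C 1)).natDegree = (p - 1) * p ^ n := by
    rw [natDegree_comp, natDegree_X_add_C, mul_one, natDegree_cyclotomic,
      Nat.totient_prime_pow_succ hp.out, mul_comm]
  have hpos : 0 < (p - 1) * p ^ n := by
    have := hp.out.one_lt
    exact Nat.mul_pos (by omega) (pow_pos hp.out.pos n)
  obtain ⟨P, hP, hx⟩ := UA_poly_lt (ζ n - 1) x hx ((cyclotomic (p ^ (n + 1)) (UU p)).comp (X + C 1))
    ((cyclotomic.monic _ _).comp_X_add_C 1)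
    (by
      rw [aeval_comp]
      have h1 : aeval (ζ n - 1) (X + C 1 : Polynomial (UU p)) = ζ n := by simp
      rw [h1]
      have h2 := (isRoot_cyclotomic_iff (R := PadicAlgCl p) (n := p ^ (n + 1)) (μ := ζ n)).2 (hζ n)
      rw [← map_cyclotomic (p ^ (n + 1)) (algebraMap (UU p) (PadicAlgCl p)), IsRoot, eval_map] at h2
      exact h2)
    (by rw [hdeg]; exact hpos)
  rw [hdeg] at hP
  refine ⟨fun i => (P.coeff i : PadicAlgCl p), fun i => (P.coeff i).2, ?_⟩
  rw [← hx, aeval_eq_sum_range' hP]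
  refine Finset.sum_congr rfl fun i _ => ?_
  rw [Algebra.smul_def]
  rfl

include hpow

theorem UA_mono : Monotone (fun n => UA (ζ n - 1)) := by
  apply monotone_nat_of_le_succ
  intro n
  apply UA_le
  apply sub_mem _ (one_mem _)
  rw [← hpow n]
  exact pow_mem (zeta_mem_UA (n + 1)) p

theorem KMu_union (x : PadicAlgCl p) (hx : x ∈ KMu p) : ∃ n, x ∈ UA (ζ n - 1) := by
  have hmono := UA_mono hζ hpow
  induction hx using IntermediateField.adjoin_induction with
  | mem z hz =>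
    obtain ⟨N, hN, hz⟩ := hz
    obtain ⟨s, m, hm, rfl⟩ := Nat.exists_eq_pow_mul_and_not_dvd hN.ne' p hp.out.one_lt.ne'
    have hcop : Nat.Coprime (p ^ s) m :=
      Nat.Coprime.pow_left s ((Nat.Prime.coprime_iff_not_dvd hp.out).2 hm)
    refine ⟨s, ?_⟩
    have h1 : z ^ p ^ s ∈ UA (ζ s - 1) := by
      apply mem_UA_of_UU
      apply Mu_mem_UU
      exact ⟨m, hm, by rw [← pow_mul]; exact hz⟩
    have h2 : z ^ m ∈ UA (ζ s - 1) := by
      have h3 : (z ^ m) ^ p ^ (s + 1) = 1 := by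
        rw [← pow_mul, show m * p ^ (s + 1) = p ^ s * m * p by rw [pow_succ]; ring, pow_mul, hz,
          one_pow]
      have : NeZero (p ^ (s + 1)) := ⟨(pow_pos hp.out.pos _).ne'⟩
      obtain ⟨i, _, h4⟩ := (hζ s).eq_pow_of_pow_eq_one h3
      rw [← h4]
      exact pow_mem (zeta_mem_UA s) i
    have hz0 : z ≠ 0 := by
      rintro rfl
      rw [zero_pow (Nat.mul_pos (pow_pos hp.out.pos s) (Nat.pos_of_ne_zero (by
        rintro rfl; exact hm (dvd_zero p)))).ne'] at hz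
      exact zero_ne_one hz
    have hbez := Nat.gcd_eq_gcd_ab (p ^ s) m
    rw [hcop] at hbez
    have h5 : z = (z ^ p ^ s) ^ (Nat.gcdA (p ^ s) m) * (z ^ m) ^ (Nat.gcdB (p ^ s) m) := by
      rw [← zpow_natCast, ← zpow_mul, ← zpow_natCast, ← zpow_mul, ← zpow_add₀ hz0, ← hbez]
      simp
    rw [h5]
    exact mul_mem (zpow_mem h1 _) (zpow_mem h2 _)
  | algebraMap x => exact ⟨0, mem_UA_of_UU _ (IntermediateField.algebraMap_mem _ x)⟩
  | add x y _ _ hx hy =>
    obtain ⟨n, hn⟩ := hx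
    obtain ⟨m, hm⟩ := hy
    exact ⟨max n m, add_mem (hmono (le_max_left n m) hn) (hmono (le_max_right n m) hm)⟩
  | inv x _ hx =>
    obtain ⟨n, hn⟩ := hx
    exact ⟨n, inv_mem hn⟩
  | mul x y _ _ hx hy =>
    obtain ⟨n, hn⟩ := hx
    obtain ⟨m, hm⟩ := hy
    exact ⟨max n m, mul_mem (hmono (le_max_left n m) hn) (hmono (le_max_right n m) hm)⟩

theorem sysMu : SysU (KMu p) (p - 1)
    (fun n => ⟨ζ n - 1, sub_mem (zeta_mem_KMu hζ n) (one_mem _)⟩) where
  dpos := (sysC hζ hpow).dpos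
  nrm := fun n => (sysC hζ hpow).nrm n
  pow := fun n => (sysC hζ hpow).pow n
  gen := fun x => by
    obtain ⟨n, hn⟩ := KMu_union hζ hpow x x.2
    obtain ⟨c, hc, hx⟩ := zeta_sum hζ n x hn
    exact ⟨n, c, hc, hx⟩
  mu := fun z hz => Mu_mem_KMu hz

end

end Pool.Agent.H22.QA
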