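import Pool.Agent.H22.QA.KMu
import Pool.Agent.H92.Tilt.TowC

/-!
The truncated formulas are decidable from the theory of the field generated by all roots of unity.
-/

set_option autoImplicit false

namespace Pool.Agent.H22.QA

open Polynomial Pool.Agent.H92.Tilt

theorem towMu (p : ℕ) [Fact p.Prime] {𝔽 : Type} [Field 𝔽] (e0 : 𝔽 ≃+* K0 p) : ∃ s : ℕ → ℕ → ℕ, Computable₂ s ∧ ∀ N c : ℕ, ∃ φ : Fm 0, φ.fv = ∅ ∧
    φ.code = s N c ∧ (φ.Holds (KMu p) (OPadic p (KMu p)) Fin.elim0 ↔ TowTrueK p 𝔽 N c) := by
  classical
  obtain ⟨sc, hsc, hclose⟩ := close_T2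
  obtain ⟨sp, hsp, hpow⟩ := pow_code 2
  let I : ℕ := Nat.pair 3 0
  let V : ℕ → ℕ := fun n => Nat.pair 0 n
  refine ⟨fun N c => Nat.pair 4 (Nat.pair 2 (Pool.Agent.H55.Tilt.impc
    (Nat.pair 3 (Nat.pair (Nat.pair 0 (Nat.pair (sp (p ^ (N + 1))) I))
      (Nat.pair 2 (Nat.pair 0 (Nat.pair (sp (p ^ N)) I)))))
    (Nat.pair 4 (Nat.pair 0 (Pool.Agent.H55.Tilt.impc
      (Nat.pair 0 (Nat.pair (Nat.pair 6 (Nat.pair (V 0)
        (Nat.pair 5 (Nat.pair (sp (p ^ N)) (Nat.pair 4 I))))) I))
      (Nat.pair 4 (Nat.pair 1 (Pool.Agent.H55.Tilt.impc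
        (Nat.pair 0 (Nat.pair (V 1) (Nat.pair 5 (Nat.pair (V 2) (Nat.pair 4 I)))))
        (sc c))))))))), ?_, ?_⟩
  · have hp1 : Computable₂ (fun N _ : ℕ => sp (p ^ (N + 1))) :=
      Pool.Agent.H55.Tilt.fst_comp (hsp.comp ((Pool.Agent.H55.Tilt.pow_computable p).comp
        Computable.succ))
    have hp0 : Computable₂ (fun N _ : ℕ => sp (p ^ N)) :=
      Pool.Agent.H55.Tilt.fst_comp (hsp.comp (Pool.Agent.H55.Tilt.pow_computable p))
    open Pool.Agent.H55.Tilt in
    exact pair_comp (const_comp 4) (pair_comp (const_comp 2) (impc_comp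
      (pair_comp (const_comp 3) (pair_comp (pair_comp (const_comp 0) (pair_comp hp1 (const_comp I)))
        (pair_comp (const_comp 2) (pair_comp (const_comp 0) (pair_comp hp0 (const_comp I))))))
      (pair_comp (const_comp 4) (pair_comp (const_comp 0) (impc_comp
        (pair_comp (const_comp 0) (pair_comp (pair_comp (const_comp 6) (pair_comp (const_comp (V 0))
          (pair_comp (const_comp 5) (pair_comp hp0 (const_comp (Nat.pair 4 I)))))) (const_comp I)))
        (pair_comp (const_comp 4) (pair_comp (const_comp 1) (impc_comp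
          (const_comp (Nat.pair 0 (Nat.pair (V 1) (Nat.pair 5 (Nat.pair (V 2) (Nat.pair 4 I))))))
          (snd_comp hsc)))))))))
  · intro N c
    obtain ⟨φ, ψ, hφ, hψ, hfv, hsat⟩ := hclose 0 c
    obtain ⟨a, ha, hafv, haval⟩ := hpow 0 (p ^ (N + 1))
    obtain ⟨b, hb, hbfv, hbval⟩ := hpow 0 (p ^ N)
    refine ⟨Fm.all 2 (Pool.Agent.H55.Tilt.imp
      (Fm.and (Fm.eq a Tm.one) (Fm.neg (Fm.eq b Tm.one)))
      (Fm.all 0 (Pool.Agent.H55.Tilt.imp
        (Fm.eq (Tm.mul (Tm.var 0) (Tm.add b (Tm.neg Tm.one))) Tm.one)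
        (Fm.all 1 (Pool.Agent.H55.Tilt.imp
          (Fm.eq (Tm.var 1) (Tm.add (Tm.var 2) (Tm.neg Tm.one))) φ))))), ?_, ?_, ?_⟩
    · simp only [Fm.fv, Tm.fv, Pool.Agent.H55.Tilt.imp_fv]
      apply Set.eq_empty_of_forall_notMem
      intro n hn
      simp only [Set.mem_sdiff, Set.mem_union, Set.mem_singleton_iff, Set.mem_empty_iff_false,
        or_false] at hn
      obtain ⟨h2, h3⟩ := hn
      have ha' : n ∈ a.fv → n = 2 := fun h => hafv h
      have hb' : n ∈ b.fv → n = 2 := fun h => hbfv h
      have hf' : n ∈ φ.fv → n = 0 ∨ n = 1 := fun h => hfv h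
      tauto
    · simp only [Fm.code, Tm.code, Pool.Agent.H55.Tilt.imp_code, hφ, ha, hb]
      rfl
    · have hmain : ∀ (z : KMu p) (e : ℕ → KMu p), z ^ p ^ (N + 1) = 1 → z ^ p ^ N ≠ 1 →
          e 0 = (z ^ p ^ N - 1)⁻¹ → e 1 = z - 1 →
          (φ.Sat (OPadic p (KMu p)) Fin.elim0 e ↔ TowTrueK p 𝔽 N c) := by
        intro z e hz1 hz2 he0 he1
        rw [hsat]
        have h1 : (z : PadicAlgCl p) ^ p ^ (N + 1) = 1 := by
          have := congrArg (fun x : KMu p => (x : PadicAlgCl p)) hz1
          simpa using this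
        have h2 : (z : PadicAlgCl p) ^ p ^ N ≠ 1 := by
          intro h
          apply hz2
          apply Subtype.ext
          simpa using h
        obtain ⟨ζ, hζ, hζp, hζN, hζ0⟩ := Pool.Agent.H55.Tilt.exists_zeta N (z : PadicAlgCl p) h1 h2
        have hsys := sysMu hζ hζp
        refine hsys.sem e0 N c ψ hψ e ?_ ?_ ?_
        · rw [he0]
          congr 1
          apply Subtype.ext
          change ((z ^ p ^ N - 1 : KMu p) : PadicAlgCl p) = ζ 0 - 1
          rw [hζ0]
          simp
        · have h3 : e 1 = (⟨ζ N - 1, sub_mem (zeta_mem_KMu hζ N) (one_mem _)⟩ : KMu p) := by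
            rw [he1]
            apply Subtype.ext
            change ((z - 1 : KMu p) : PadicAlgCl p) = ζ N - 1
            rw [hζN]
            simp
          rw [h3]
          exact hsys.mem N
        · rw [he1]
          have h3 : ((z - 1 : KMu p) : PadicAlgCl p) = ζ N - 1 := by
            rw [hζN]
            simp
          rw [h3]
          change ‖ζ N - 1 - (ζ N - 1)‖ ≤ _
          rw [sub_self, norm_zero]
          exact norm_nonneg _
      constructor
      · intro hH
        obtain ⟨z, hz1, hz2⟩ := Pool.Agent.H55.Tilt.exists_prim (p := p) N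
        let z' : KMu p := ⟨z, IntermediateField.subset_adjoin _ _ ⟨p ^ (N + 1), pow_pos (Fact.out : p.Prime).pos _, hz1⟩⟩
        have hz1' : z' ^ p ^ (N + 1) = 1 := by
          apply Subtype.ext
          simpa using hz1
        have hz2' : z' ^ p ^ N ≠ 1 := by
          intro h
          apply hz2
          have := congrArg (fun x : KMu p => (x : PadicAlgCl p)) h
          simpa using this
        have hz3 : z' ^ p ^ N - 1 ≠ 0 := sub_ne_zero.2 hz2'
        have h2 := hH (fun n => 0)
        simp only [Fm.Sat] at h2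
        have h3 := h2 z'
        rw [Pool.Agent.H55.Tilt.imp_sat] at h3
        have h4 := h3 (by
          simp only [Fm.Sat, Tm.val]
          rw [haval, hbval, Function.update_self]
          exact ⟨hz1', hz2'⟩)
        simp only [Fm.Sat] at h4
        have h5 := h4 ((z' ^ p ^ N - 1)⁻¹)
        rw [Pool.Agent.H55.Tilt.imp_sat] at h5
        have h6 := h5 (by
          simp only [Fm.Sat, Tm.val]
          rw [hbval, Function.update_self, Function.update_of_ne (by norm_num),
            Function.update_self, ← sub_eq_add_neg]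
          exact inv_mul_cancel₀ hz3)
        simp only [Fm.Sat] at h6
        have h7 := h6 (z' - 1)
        rw [Pool.Agent.H55.Tilt.imp_sat] at h7
        have h8 := h7 (by
          simp only [Fm.Sat, Tm.val]
          rw [Function.update_self, Function.update_of_ne (by norm_num),
            Function.update_of_ne (by norm_num), Function.update_self, ← sub_eq_add_neg])
        refine (hmain z' _ hz1' hz2' ?_ ?_).1 h8
        · rw [Function.update_of_ne (by norm_num), Function.update_self]
        · rw [Function.update_self]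
      · intro hT e
        simp only [Fm.Sat]
        intro z
        rw [Pool.Agent.H55.Tilt.imp_sat]
        intro hz
        simp only [Fm.Sat, Tm.val] at hz
        rw [haval, hbval, Function.update_self] at hz
        simp only [Fm.Sat]
        intro x0
        rw [Pool.Agent.H55.Tilt.imp_sat]
        intro hx0
        simp only [Fm.Sat, Tm.val] at hx0
        rw [hbval, Function.update_self, Function.update_of_ne (by norm_num),
            Function.update_self, ← sub_eq_add_neg] at hx0
        simp only [Fm.Sat]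
        intro x1
        rw [Pool.Agent.H55.Tilt.imp_sat]
        intro hx1
        simp only [Fm.Sat, Tm.val] at hx1
        rw [Function.update_self, Function.update_of_ne (by norm_num),
            Function.update_of_ne (by norm_num), Function.update_self, ← sub_eq_add_neg] at hx1
        refine (hmain z _ hz.1 hz.2 ?_ ?_).2 hT
        · rw [Function.update_of_ne (by norm_num), Function.update_self]
          exact eq_inv_of_mul_eq_one_left hx0
        · rw [Function.update_self]
          exact hx1

end Pool.Agent.H22.QA
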