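import Pool.Agent.H22.QA.FTowK
import Pool.Agent.H22.QA.TowMu
import Pool.Agent.H92.Tilt.Fin

/-!
Transfer to the perfect hull of `𝕜((t))`, and the theorem for the field generated by all roots of unity.
-/

set_option autoImplicit false

namespace Pool.Agent.H22.QA

open Pool.Agent.H92.Tilt

theorem transferK (p : ℕ) [Fact p.Prime] (𝕜 : Type) [Field 𝕜] [CharP 𝕜 p] [PerfectRing 𝕜 p] (g : ℕ → ℕ → Bool) (hg : Computable₂ g)
    (h : ∀ N c, g N c = true ↔ TowTrueK p 𝕜 N c) :
    DecidableTheory 1 (FPerfK 𝕜) (OPerfK p 𝕜) (fun _ => tPerfK 𝕜) := by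
  classical
  obtain ⟨MF, i, hO, ht⟩ := exists_FPkK p 𝕜
  obtain ⟨axs, haxs, hpk, hstr⟩ := axioms_exist p
  obtain ⟨s, hs, hsem⟩ := trunc_sentence p
  obtain ⟨S0, q0, hP0, hS0⟩ := hpk MF
  obtain ⟨r, hr0, hr1⟩ := exists_roots p MF
  obtain ⟨AT, htow⟩ := ftowK p 𝕜 MF i hO ht r hr0 hr1
  -- truncated truth in the package of `FPerf`
  have hMF : ∀ (N c : ℕ) (x : MF.Om), x ^ p ^ N = MF.t →
      (semTr c (MF.par x) ↔ TowTrueK p 𝕜 N c) := by
    intro N c x hx
    have hxr : x = r N := root_unique p (n := N) (by rw [hx, roots_pow p hr0 hr1])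
    rw [towTrueK_iff htow N c, hxr]
    rfl
  let Γ : ℕ → ℕ := fun m => bif m.bodd then
    (bif g m.div2.unpair.1 m.div2.unpair.2 then s m.div2.unpair.1 m.div2.unpair.2
      else Nat.pair 2 (s m.div2.unpair.1 m.div2.unpair.2)) else axs m.div2
  have hΓ : Computable Γ := by
    have hu1 : Computable fun m : ℕ => m.div2.unpair.1 :=
      (Primrec.fst.comp (Primrec.unpair.comp Primrec.nat_div2)).to_comp
    have hu2 : Computable fun m : ℕ => m.div2.unpair.2 :=
      (Primrec.snd.comp (Primrec.unpair.comp Primrec.nat_div2)).to_comp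
    have h1 : Computable fun m : ℕ => s m.div2.unpair.1 m.div2.unpair.2 := hs.comp hu1 hu2
    have h2 : Computable fun m : ℕ => g m.div2.unpair.1 m.div2.unpair.2 := hg.comp hu1 hu2
    have h3 : Computable fun m : ℕ => Nat.pair 2 (s m.div2.unpair.1 m.div2.unpair.2) :=
      Primrec₂.natPair.to_comp.comp (Computable.const 2) h1
    exact Computable.cond Primrec.nat_bodd.to_comp (Computable.cond h2 h1 h3)
      (haxs.comp Primrec.nat_div2.to_comp)
  have hΓe : ∀ n, Γ (2 * n) = axs n := by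
    intro n
    simp [Γ, Nat.div2_val]
  have hΓo : ∀ N c, Γ (2 * Nat.pair N c + 1) =
      bif g N c then s N c else Nat.pair 2 (s N c) := by
    intro N c
    have h1 : (2 * Nat.pair N c + 1).bodd = true := by simp
    have h2 : (2 * Nat.pair N c + 1).div2 = Nat.pair N c := by
      rw [Nat.div2_val]; omega
    simp only [Γ, h1, h2, Nat.unpair_pair, cond_true]
  have h0 : ∀ m, sem S0 (Γ m) (fun _ => S0.zero) := by
    intro m
    rcases Nat.even_or_odd' m with ⟨n, rfl | rfl⟩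
    · rw [hΓe]
      exact hS0 n
    · obtain ⟨⟨N, c⟩, rfl⟩ := (Nat.pairEquiv).surjective n
      show sem S0 (Γ (2 * Nat.pair N c + 1)) _
      rw [hΓo]
      have h1 := hsem MF S0 q0 hP0 N c (r N) (roots_pow p hr0 hr1 N)
      rw [hMF N c (r N) (roots_pow p hr0 hr1 N), ← h N c] at h1
      cases hgb : g N c with
      | true =>
        rw [hgb] at h1
        exact h1.2 rfl
      | false =>
        rw [hgb] at h1
        simp only [cond_false, sem_neg]
        intro h2
        exact Bool.false_ne_true (h1.1 h2)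
  obtain ⟨nm, hnm, hnm1, hnm2⟩ := norm_exists 0
  have hc : ∀ c, ∀ S : Str, (∀ m, sem S (Γ m) (fun _ => S.zero)) →
      (sem S (nm c) (fun _ => S.zero) ↔ sem S0 (nm c) (fun _ => S0.zero)) := by
    intro c S hS
    obtain ⟨M', q', hP'⟩ := hstr S (fun m => by rw [← hΓe m]; exact hS _)
    obtain ⟨φ, hφ⟩ := hnm1 c
    rw [hφ, hP'.sem_iff, hP0.sem_iff]
    simp only [hP'.zero, hP0.zero]
    symm
    apply G3
    intro N c' x x' hx hx'
    rw [← hsem MF S0 q0 hP0 N c' x hx, ← hsem M' S q' hP' N c' x' hx']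
    have hb := hS (2 * Nat.pair N c' + 1)
    have hb0 := h0 (2 * Nat.pair N c' + 1)
    rw [hΓo] at hb hb0
    cases hgb : g N c' with
    | true =>
      rw [hgb] at hb hb0
      exact ⟨fun _ => hb, fun _ => hb0⟩
    | false =>
      rw [hgb] at hb hb0
      simp only [cond_false, sem_neg] at hb hb0
      exact ⟨fun hh => absurd hh hb0, fun hh => absurd hh hb⟩
  obtain ⟨f, hf, hf2⟩ := decide_of_complete Γ hΓ S0 h0 nm hnm.to_comp hc
  refine DecidableTheory.of_fn f hf fun φ hφ => ?_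
  rw [hf2, hnm2, hP0.sem_iff]
  simp only [hP0.zero]
  rw [MF.sat_iff φ (fun _ => 0) (fun _ => MF.K.zero_mem)]
  have hiso := φ.sat_equiv i (O := OPerfK p 𝕜) (O' := {x : MF.K | (x : MF.Om) ∈ MF.O})
    (fun x => (hO x).symm) (fun _ => tPerfK 𝕜) (fun _ => 0)
  have ht' : (fun _ : Fin 1 => i (tPerfK 𝕜)) = fun _ => (⟨MF.t, MF.t_mem_K⟩ : MF.K) := by
    funext _
    exact Subtype.ext ht
  rw [ht'] at hiso
  have hz : (fun _ : ℕ => i (0 : FPerfK 𝕜)) = fun _ => (⟨0, MF.K.zero_mem⟩ : MF.K) := by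
    funext _
    exact map_zero i
  rw [hz] at hiso
  rw [← hiso]
  constructor
  · intro h1 e
    exact (φ.sat_congr _ _ (fun n hn => by rw [hφ] at hn; exact absurd hn (by simp))).1 h1
  · intro h1
    exact h1 _

/-- If the theory of `ℚ_p(all roots of unity)` is decidable, so is the theory of the perfect hull of
`𝔽_p^ac((t))` with a constant for `t`. -/
theorem mainMu (p : ℕ) [Fact p.Prime] :
    DecidableTheory 0 (KMu p) (OPadic p (KMu p)) Fin.elim0 →
      DecidableTheory 1 (FPerfK (AlgebraicClosure (ZMod p))) (OPerfK p (AlgebraicClosure (ZMod p)))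
        (fun _ => tPerfK (AlgebraicClosure (ZMod p))) := by
  intro hdec
  obtain ⟨e0, -⟩ := exists_equiv_K0 (p := p)
  obtain ⟨f, hf, hf2⟩ := hdec.fn
  obtain ⟨s, hs, hs2⟩ := towMu p e0
  refine transferK p (AlgebraicClosure (ZMod p)) (fun N c => f (s N c)) (hf.comp₂ hs) ?_
  intro N c
  obtain ⟨φ, h3, h4, h5⟩ := hs2 N c
  rw [← h4, hf2 φ h3, h5]

end Pool.Agent.H22.QA
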