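import Pool.Agent.H22.QA.UnrB

/-!
The residue field of `PadicAlgCl p` is an algebraic closure of the prime field; representatives in
`{0}` and the roots of unity of order prime to `p`.
-/

set_option autoImplicit false

namespace Pool.Agent.H22.QA

open Polynomial Pool.Agent.H55.Tilt

variable {p : ℕ} [hp : Fact p.Prime]

/-- The maximal ideal of the unit ball. -/
def MI (p : ℕ) [Fact p.Prime] : Ideal (OC p) where
  carrier := {x | ‖(x : PadicAlgCl p)‖ < 1}
  add_mem' := by
    intro a b ha hb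
    show ‖(a : PadicAlgCl p) + b‖ < 1
    exact lt_of_le_of_lt (PadicAlgCl.isNonarchimedean p _ _) (max_lt ha hb)
  zero_mem' := by
    show ‖((0 : OC p) : PadicAlgCl p)‖ < 1
    rw [Subring.coe_zero, norm_zero]
    exact zero_lt_one
  smul_mem' := by
    intro c x hx
    show ‖((c * x : OC p) : PadicAlgCl p)‖ < 1
    rw [Subring.coe_mul, norm_mul]
    have hc : ‖(c : PadicAlgCl p)‖ ≤ 1 := c.2
    have hx' : ‖(x : PadicAlgCl p)‖ < 1 := hx
    exact lt_of_le_of_lt (mul_le_of_le_one_left (norm_nonneg _) hc) hx'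

theorem mem_MI {x : OC p} : x ∈ MI p ↔ ‖(x : PadicAlgCl p)‖ < 1 := Iff.rfl

instance MI_max : (MI p).IsMaximal := by
  rw [Ideal.isMaximal_iff]
  constructor
  · intro h
    rw [mem_MI, Subring.coe_one, norm_one] at h
    exact lt_irrefl _ h
  · intro J x _ hx hxJ
    have h1 : ‖(x : PadicAlgCl p)‖ = 1 := by
      rw [mem_MI, not_lt] at hx
      exact le_antisymm x.2 hx
    have h0 : (x : PadicAlgCl p) ≠ 0 := by
      intro h
      rw [h, norm_zero] at h1
      exact zero_ne_one h1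
    let y : OC p := ⟨(x : PadicAlgCl p)⁻¹, by rw [mem_OC, norm_inv, h1, inv_one]⟩
    have h2 : y * x = 1 := by
      apply Subtype.ext
      show (x : PadicAlgCl p)⁻¹ * x = 1
      exact inv_mul_cancel₀ h0
    rw [← h2]
    exact J.mul_mem_left y hxJ

/-- The residue field. -/
abbrev K0 (p : ℕ) [Fact p.Prime] : Type := OC p ⧸ MI p

noncomputable instance K0_field : Field (K0 p) := Ideal.Quotient.field (MI p)

/-- Reduction. -/
noncomputable def rd (p : ℕ) [Fact p.Prime] : OC p →+* K0 p := Ideal.Quotient.mk (MI p)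

theorem rd_eq_zero {x : OC p} : rd p x = 0 ↔ ‖(x : PadicAlgCl p)‖ < 1 := Ideal.Quotient.eq_zero_iff_mem

theorem rd_eq {x y : OC p} : rd p x = rd p y ↔ ‖(x : PadicAlgCl p) - y‖ < 1 := by
  rw [← sub_eq_zero, ← map_sub, rd_eq_zero]
  rfl

theorem rd_surj : Function.Surjective (rd p) := Ideal.Quotient.mk_surjective

instance K0_char : CharP (K0 p) p := by
  have h1 : ((p : ℕ) : K0 p) = 0 := by
    have h2 : rd p ((p : ℕ) : OC p) = 0 := by
      rw [rd_eq_zero]
      have h3 : (((p : ℕ) : OC p) : PadicAlgCl p) = (p : PadicAlgCl p) := by simp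
      rw [h3, norm_p_cl]
      exact inv_lt_one_of_one_lt₀ one_lt_p
    rwa [map_natCast] at h2
  exact ringChar.of_eq (CharP.ringChar_of_prime_eq_zero hp.out h1)

noncomputable instance K0_alg : Algebra (ZMod p) (K0 p) := ZMod.algebra (K0 p) p

theorem K0_algebraic : Algebra.IsAlgebraic (ZMod p) (K0 p) := by
  constructor
  intro a
  by_cases h0 : a = 0
  · rw [h0]
    exact isAlgebraic_zero
  · obtain ⟨x, rfl⟩ := rd_surj a
    have hx : ‖(x : PadicAlgCl p)‖ = 1 := by
      rw [rd_eq_zero, not_lt] at h0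
      exact le_antisymm x.2 h0
    obtain ⟨n, hn, h1⟩ := exists_pow_cong (x : PadicAlgCl p) hx
    have h2 : (rd p x) ^ n = 1 := by
      rw [← map_pow, ← map_one (rd p), rd_eq]
      exact h1
    refine ⟨X ^ n - 1, ?_, ?_⟩
    · have := (monic_X_pow_sub_C (1 : ZMod p) hn.ne').ne_zero
      rwa [C_1] at this
    · simp [h2]

/-- Roots of monic polynomials over the unit ball are in the unit ball. -/
theorem root_mem {F : (OC p)[X]} (hF : F.Monic) {α : PadicAlgCl p}
    (h : F.eval₂ (OC p).subtype α = 0) : ‖α‖ ≤ 1 := by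
  by_contra hc
  rw [not_le] at hc
  rcases Nat.eq_zero_or_pos F.natDegree with h0 | h0
  · rw [hF.natDegree_eq_zero.1 h0, eval₂_one] at h
    exact one_ne_zero h
  · have h1 : F.eval₂ (OC p).subtype α =
        α ^ F.natDegree + ∑ i ∈ Finset.range F.natDegree, (F.coeff i : PadicAlgCl p) * α ^ i := by
      rw [eval₂_eq_sum_range, Finset.sum_range_succ, add_comm]
      congr 1
      have : F.coeff F.natDegree = 1 := hF
      rw [this, map_one, one_mul]
    have h2 : ‖∑ i ∈ Finset.range F.natDegree, (F.coeff i : PadicAlgCl p) * α ^ i‖ ≤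
        ‖α‖ ^ (F.natDegree - 1) := by
      apply IsUltrametricDist.norm_sum_le_of_forall_le_of_nonneg (by positivity)
      intro i hi
      rw [Finset.mem_range] at hi
      rw [norm_mul, norm_pow]
      have h3 : ‖(F.coeff i : PadicAlgCl p)‖ ≤ 1 := (F.coeff i).2
      calc ‖(F.coeff i : PadicAlgCl p)‖ * ‖α‖ ^ i ≤ 1 * ‖α‖ ^ i :=
            mul_le_mul_of_nonneg_right h3 (by positivity)
        _ = ‖α‖ ^ i := one_mul _
        _ ≤ _ := pow_le_pow_right₀ hc.le (by omega)
    have h4 : ‖α‖ ^ F.natDegree ≤ ‖α‖ ^ (F.natDegree - 1) := by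
      have h5 : α ^ F.natDegree = -∑ i ∈ Finset.range F.natDegree, (F.coeff i : PadicAlgCl p) * α ^ i := by
        rw [h] at h1
        exact eq_neg_of_add_eq_zero_left h1.symm
      rw [← norm_pow, h5, norm_neg]
      exact h2
    have h6 : ‖α‖ ^ (F.natDegree - 1) < ‖α‖ ^ F.natDegree := pow_lt_pow_right₀ hc (by omega)
    linarith

theorem K0_closed : IsAlgClosed (K0 p) := by
  apply IsAlgClosed.of_exists_root
  intro f hf hirr
  have hl : f ∈ Polynomial.lifts (rd p) := by
    rw [Polynomial.mem_lifts]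
    exact Polynomial.map_surjective _ rd_surj f
  obtain ⟨F, hFf, hdeg, hF⟩ := Polynomial.lifts_and_natDegree_eq_and_monic hl hf
  have hdeg2 : (F.map (OC p).subtype).degree ≠ 0 := by
    rw [hF.degree_map, degree_eq_natDegree hF.ne_zero, hdeg]
    have := hirr.natDegree_pos
    exact_mod_cast this.ne'
  obtain ⟨α, hα⟩ := IsAlgClosed.exists_root (F.map (OC p).subtype) hdeg2
  rw [IsRoot, eval_map] at hα
  have h1 : ‖α‖ ≤ 1 := root_mem hF hα
  have h1' : α ∈ OC p := h1
  refine ⟨rd p ⟨α, h1'⟩, ?_⟩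
  have h4 := Polynomial.hom_eval₂ F (RingHom.id (OC p)) (rd p) ⟨α, h1'⟩
  rw [RingHom.comp_id] at h4
  rw [← hFf, eval_map, ← h4]
  have h2 : eval₂ (RingHom.id (OC p)) (⟨α, h1'⟩ : OC p) F = 0 := by
    apply Subtype.ext
    have h3 := Polynomial.hom_eval₂ F (RingHom.id (OC p)) (OC p).subtype ⟨α, h1⟩
    rw [show ((eval₂ (RingHom.id (OC p)) (⟨α, h1⟩ : OC p) F : OC p) : PadicAlgCl p) =
      (OC p).subtype (eval₂ (RingHom.id (OC p)) (⟨α, h1⟩ : OC p) F) from rfl, h3]
    exact hα
  rw [h2, map_zero]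

/-- The residue field is an algebraic closure of the prime field. -/
theorem exists_equiv_K0 : ∃ _ : AlgebraicClosure (ZMod p) ≃+* K0 p, True := by
  have h1 := K0_algebraic (p := p)
  have h2 := K0_closed (p := p)
  have : IsAlgClosure (ZMod p) (K0 p) := ⟨h2, h1⟩
  exact ⟨(IsAlgClosure.equiv (ZMod p) (AlgebraicClosure (ZMod p)) (K0 p)).toRingEquiv, trivial⟩

/-- Representatives. -/
theorem exists_rep (a : K0 p) : ∃ z : OC p, rd p z = a ∧
    ((z : PadicAlgCl p) = 0 ∨ (z : PadicAlgCl p) ∈ Mu p) := by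
  by_cases h0 : a = 0
  · exact ⟨0, by rw [h0, map_zero], Or.inl rfl⟩
  · obtain ⟨x, rfl⟩ := rd_surj a
    have hx : ‖(x : PadicAlgCl p)‖ = 1 := by
      rw [rd_eq_zero, not_lt] at h0
      exact le_antisymm x.2 h0
    obtain ⟨z, hz, h1⟩ := exists_teich hx
    obtain ⟨m, hm, hzm⟩ := hz
    have hm0 : m ≠ 0 := by rintro rfl; exact hm (dvd_zero p)
    refine ⟨⟨z, (norm_Mu hm0 hzm).le⟩, ?_, Or.inr ⟨m, hm, hzm⟩⟩
    rw [rd_eq, norm_sub_rev]
    exact h1

end Pool.Agent.H22.QA
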