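import Pool.Agent.H22.QA.SysT

/-!
Truth of truncated formulas in a totally ramified tower over `UU p`.
-/

set_option autoImplicit false

namespace Pool.Agent.H22.QA

open Polynomial Pool.Agent.H92.Tilt Pool.Agent.H55.Tilt

variable {p : ℕ} [hp : Fact p.Prime]

variable {K : IntermediateField ℚ_[p] (PadicAlgCl p)} {d : ℕ} {π : ℕ → K}

open Classical in
/-- reduction, extended by zero -/
noncomputable def SysU.cl (h : SysU K d π) (x : K) : h.R :=
  if hx : x ∈ OK K then h.red ⟨x, hx⟩ else 0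

theorem SysU.cl_of_mem (h : SysU K d π) {x : K} (hx : x ∈ OK K) : h.cl x = h.red ⟨x, hx⟩ := by
  unfold SysU.cl
  rw [dif_pos hx]

theorem SysU.sem (h : SysU K d π) {𝔽 : Type} [Field 𝔽] (e0 : 𝔽 ≃+* K0 p) (N c : ℕ) (ψ : Fm 0)
    (hψ : ψ.code = T2 c) (e : ℕ → K)
    (h0 : e 0 = (π 0)⁻¹) (h1 : e 1 ∈ OK K)
    (h1' : ‖((e 1 : K) : PadicAlgCl p) - (π N : PadicAlgCl p)‖ ≤ ‖(π 0 : PadicAlgCl p)‖) :
    ψ.Sat (OPadic p K) Fin.elim0 (fun n => if n < 2 then e n else 0) ↔ TowTrueK p 𝔽 N c := by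
  have hne : (π 0 : PadicAlgCl p) ≠ 0 := norm_pos_iff.1 (h.nrm_pos 0)
  have hne' : π 0 ≠ 0 := fun h0 => hne (by rw [h0]; rfl)
  have key := T2_sem (k := 0) (⊤ : Subring K) (OK K) Fin.elim0 h.cl (π 0) (π 0)⁻¹
    (mul_inv_cancel₀ hne') (Subring.mem_top _) (Subring.mem_top _) (h.mem 0)
    (by
      rw [h.cl_of_mem (OK K).one_mem]
      exact map_one h.red)
    (by
      intro x hx y hy
      rw [h.cl_of_mem hx.2, h.cl_of_mem hy.2, h.cl_of_mem ((OK K).add_mem hx.2 hy.2), ← map_add]
      rfl)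
    (by
      intro x hx y hy
      rw [h.cl_of_mem hx.2, h.cl_of_mem hy.2, h.cl_of_mem ((OK K).mul_mem hx.2 hy.2), ← map_mul]
      rfl)
    (by
      intro q
      obtain ⟨x, rfl⟩ := h.red_surj q
      exact ⟨x, ⟨Subring.mem_top _, x.2⟩, h.cl_of_mem x.2⟩)
    (by
      intro x hx y hy
      rw [h.cl_of_mem hx.2, h.cl_of_mem hy.2, h.red_eq]
      change ‖((x : K) : PadicAlgCl p) - ((y : K) : PadicAlgCl p)‖ ≤ _ ↔ _
      rw [mem_OK, IntermediateField.coe_mul, IntermediateField.coe_inv, norm_mul, norm_inv,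
        ← div_eq_inv_mul, div_le_one (h.nrm_pos 0)]
      rfl)
    c ψ hψ (fun n => if n < 2 then e n else 0) (by simp [h0])
    (by
      intro n
      refine ⟨Subring.mem_top _, ?_⟩
      by_cases hn : n = 0
      · subst hn
        simpa using h1
      · have : ¬ n + 1 < 2 := by omega
        simp only [this, if_false]
        exact (OK K).zero_mem)
  rw [Subring.coe_top, satIn_univ] at key
  have henv : (fun n => h.cl ((fun n => if n < 2 then e n else 0) (n + 1))) =
      (fun n => if n = 0 then h.red (h.u N) else 0) := by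
    funext n
    by_cases hn : n = 0
    · subst hn
      simp only [if_true]
      have h2 : h.cl (e 1) = h.red (h.u N) := by
        rw [h.cl_of_mem h1, h.red_eq]
        exact h1'
      simpa using h2
    · have : ¬ n + 1 < 2 := by omega
      simp only [this, if_false, hn]
      rw [h.cl_of_mem (OK K).zero_mem]
      exact map_zero h.red
  rw [henv] at key
  refine (Iff.trans (by exact key) ?_)
  obtain ⟨A, htow⟩ := h.tower e0
  exact (towTrueK_iff htow N c).symm

end Pool.Agent.H22.QA
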