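import Pool.Agent.H22.QA.SysU

/-!
The truncated ring of a totally ramified tower over `UU p` is a tower over the residue field.
-/

set_option autoImplicit false

namespace Pool.Agent.H22.QA

open Polynomial Pool.Agent.H92.Tilt Pool.Agent.H55.Tilt

variable {p : ℕ} [hp : Fact p.Prime]

variable {K : IntermediateField ℚ_[p] (PadicAlgCl p)} {d : ℕ} {π : ℕ → K}

theorem SysU.red_eq' (h : SysU K d π) (x y : OK K) :
    h.red x = h.red y ↔ ‖cf K x - cf K y‖ ≤ ‖(π 0 : PadicAlgCl p)‖ := h.red_eq x y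

theorem SysU.red_eq_zero' (h : SysU K d π) (x : OK K) :
    h.red x = 0 ↔ ‖cf K x‖ ≤ ‖(π 0 : PadicAlgCl p)‖ := h.red_eq_zero x

theorem SysU.surj_aux (h : SysU K d π) (x : OK K) : ∃ n, ∃ a : ℕ → K0 p,
    h.red x = h.red (∑ i ∈ Finset.range (d * p ^ n), h.tK (a i) * h.u n ^ i) := by
  obtain ⟨n, c, hcU, hx⟩ := h.gen (x : K)
  have hxc : cf K x = ∑ i ∈ Finset.range (d * p ^ n), c i * (π n : PadicAlgCl p) ^ i := hx
  have hm := h.nrm n
  have hx1 : ‖∑ i ∈ Finset.range (d * p ^ n), c i * (π n : PadicAlgCl p) ^ i‖ ≤ 1 := by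
    rw [← hxc]; exact x.2
  have hc : ∀ i < d * p ^ n, ‖c i‖ ≤ 1 := by
    intro i hi
    apply UU_le_one (hcU i)
    have h1 := (termU_le (π n : PadicAlgCl p) _ hm c hcU hi).trans hx1
    have h2 : (p : ℝ)⁻¹ < ‖(π n : PadicAlgCl p)‖ ^ i := by
      rw [← hm]
      exact pow_lt_pow_right_of_lt_one₀ (h.nrm_pos n) (h.nrm_lt n) hi
    by_contra hcon
    rw [not_lt] at hcon
    have h3 : 1 < ‖c i‖ * ‖(π n : PadicAlgCl p)‖ ^ i := by
      calc (1 : ℝ) = p * (p : ℝ)⁻¹ := (mul_inv_cancel₀ p_pos.ne').symm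
        _ < p * ‖(π n : PadicAlgCl p)‖ ^ i := mul_lt_mul_of_pos_left h2 p_pos
        _ ≤ _ := mul_le_mul_of_nonneg_right hcon (by positivity)
    exact absurd h1 (not_le.2 h3)
  have hk : ∀ i, ∃ a : K0 p, i < d * p ^ n → ‖c i - tz a‖ ≤ (p : ℝ)⁻¹ := by
    intro i
    by_cases hi : i < d * p ^ n
    · refine ⟨rd p ⟨c i, hc i hi⟩, fun _ => ?_⟩
      apply UU_lt_one (sub_mem (hcU i) (tz_UU _))
      rw [norm_sub_rev]
      exact tz_lt (x := ⟨c i, hc i hi⟩) rfl
    · exact ⟨0, fun h => absurd h hi⟩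
  choose a ha using hk
  refine ⟨n, a, ?_⟩
  rw [h.red_eq', h.coe_sum, hxc, ← Finset.sum_sub_distrib]
  apply IsUltrametricDist.norm_sum_le_of_forall_le_of_nonneg (norm_nonneg _)
  intro i hi
  rw [Finset.mem_range] at hi
  rw [← sub_mul, norm_mul, norm_pow]
  calc _ ≤ (p : ℝ)⁻¹ * 1 := by
        apply mul_le_mul (ha i hi) (pow_le_one₀ (norm_nonneg _) (h.nrm_lt n).le)
          (by positivity) (inv_pos.2 p_pos).le
    _ ≤ _ := by rw [mul_one]; exact h.p_le

theorem SysU.ker_aux (h : SysU K d π) (b : ℕ → K0 p) (n M : ℕ) (hM : d * p ^ n ≤ M) :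
    h.red (∑ i ∈ Finset.range M, h.tK (b i) * h.u n ^ i) = 0 ↔ ∀ i < p ^ n, b i = 0 := by
  rw [h.red_eq_zero', h.coe_sum]
  set m := d * p ^ n with hmdef
  have hm := h.nrm n
  rw [← hmdef] at hm
  have hpn : 0 < p ^ n := pow_pos hp.out.pos n
  have hle : p ^ n ≤ m := Nat.le_mul_of_pos_left _ h.dpos
  -- split the sum
  let c : ℕ → PadicAlgCl p := fun i => if i < p ^ n then (tz (b i) : PadicAlgCl p) else 0
  have hcU : ∀ i, c i ∈ UU p := by
    intro i
    by_cases hi : i < p ^ n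
    · simp only [c, hi, if_true]
      exact tz_UU _
    · simp only [c, hi, if_false]
      exact zero_mem _
  have hdiff : ‖∑ i ∈ Finset.range M, (tz (b i) : PadicAlgCl p) *
      (π n : PadicAlgCl p) ^ i - ∑ i ∈ Finset.range m, c i * (π n : PadicAlgCl p) ^ i‖ ≤
        ‖(π 0 : PadicAlgCl p)‖ := by
    have hB : ∑ i ∈ Finset.range m, c i * (π n : PadicAlgCl p) ^ i =
        ∑ i ∈ Finset.range M, c i * (π n : PadicAlgCl p) ^ i := by
      apply Finset.sum_subset (Finset.range_mono hM)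
      intro i _ hi
      rw [Finset.mem_range, not_lt] at hi
      have : ¬ i < p ^ n := by omega
      simp [c, this]
    rw [hB, ← Finset.sum_sub_distrib]
    apply IsUltrametricDist.norm_sum_le_of_forall_le_of_nonneg (norm_nonneg _)
    intro i _
    by_cases hi : i < p ^ n
    · simp [c, hi]
    · simp only [c, hi, if_false, zero_mul, sub_zero]
      rw [norm_mul, norm_pow]
      calc _ ≤ 1 * ‖(π n : PadicAlgCl p)‖ ^ p ^ n := by
            apply mul_le_mul (tz_norm _) ?_ (by positivity) zero_le_one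
            exact pow_le_pow_of_le_one (norm_nonneg _) (h.nrm_lt n).le (by omega)
        _ = _ := by rw [one_mul, h.nrm_pow]
  have hiff : ‖∑ i ∈ Finset.range M, (tz (b i) : PadicAlgCl p) *
      (π n : PadicAlgCl p) ^ i‖ ≤ ‖(π 0 : PadicAlgCl p)‖ ↔
      ‖∑ i ∈ Finset.range m, c i * (π n : PadicAlgCl p) ^ i‖ ≤ ‖(π 0 : PadicAlgCl p)‖ := by
    set A1 := ∑ i ∈ Finset.range M, (tz (b i) : PadicAlgCl p) * (π n : PadicAlgCl p) ^ i
    set A2 := ∑ i ∈ Finset.range m, c i * (π n : PadicAlgCl p) ^ i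
    constructor
    · intro h3
      have := IsUltrametricDist.norm_add_le_max A1 (-(A1 - A2))
      rw [← sub_eq_add_neg, sub_sub_cancel, norm_neg] at this
      exact this.trans (max_le h3 hdiff)
    · intro h3
      have := IsUltrametricDist.norm_add_le_max (A1 - A2) A2
      rw [sub_add_cancel] at this
      exact this.trans (max_le hdiff h3)
  rw [hiff]
  constructor
  · intro h3 i hi
    have h4 := (termU_le (π n : PadicAlgCl p) m hm c hcU (i := i) (by omega)).trans h3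
    rw [← h.nrm_pow n] at h4
    simp only [c, hi, if_true] at h4
    by_contra hne
    rw [tz_norm_one hne, one_mul] at h4
    have h5 : ‖(π n : PadicAlgCl p)‖ ^ p ^ n < ‖(π n : PadicAlgCl p)‖ ^ i :=
      pow_lt_pow_right_of_lt_one₀ (h.nrm_pos n) (h.nrm_lt n) hi
    linarith
  · intro h3
    have h4 : ∀ i ∈ Finset.range m, c i * (π n : PadicAlgCl p) ^ i = 0 := by
      intro i _
      by_cases hi : i < p ^ n
      · simp only [c, hi, if_true]
        rw [h3 i hi, tz_eq_zero.2 rfl, zero_mul]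
      · simp [c, hi]
    rw [Finset.sum_eq_zero h4, norm_zero]
    exact norm_nonneg _

private theorem sum_poly {𝔽 : Type} [Field 𝔽] (a : ℕ → 𝔽) {m : ℕ} (hm : 0 < m) :
    ∃ Q : 𝔽[X], Q.natDegree < m ∧ ∀ i < m, Q.coeff i = a i := by
  refine ⟨∑ i ∈ Finset.range m, C (a i) * X ^ i, ?_, ?_⟩
  · have h1 : (∑ i ∈ Finset.range m, C (a i) * X ^ i : 𝔽[X]).natDegree ≤ m - 1 := by
      apply natDegree_sum_le_of_forall_le
      intro i hi
      rw [Finset.mem_range] at hi
      exact (natDegree_C_mul_X_pow_le _ _).trans (by omega)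
    omega
  · intro i hi
    rw [finsetSum_coeff]
    simp only [coeff_C_mul, coeff_X_pow]
    rw [Finset.sum_eq_single i]
    · simp
    · intro j _ hj
      rw [if_neg (Ne.symm hj), mul_zero]
    · intro hn
      exact absurd (Finset.mem_range.2 hi) hn

theorem SysU.tower (h : SysU K d π) {𝔽 : Type} [Field 𝔽] (e : 𝔽 ≃+* K0 p) :
    ∃ _ : Algebra 𝔽 h.R, TowerK p 𝔽 h.R (fun n => h.red (h.u n)) := by
  let κ : 𝔽 →+* h.R := h.kap.comp e.toRingHom
  let A : Algebra 𝔽 h.R := κ.toAlgebra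
  refine ⟨A, ?_⟩
  have hae : ∀ (x : h.R) (Q : Polynomial 𝔽), aeval x Q = Q.eval₂ κ x := fun x Q => rfl
  refine ⟨?_, ?_, ?_⟩
  · intro n
    change h.red (h.u (n + 1)) ^ p = h.red (h.u n)
    rw [← map_pow, h.red_eq]
    exact h.pow n
  · intro x
    obtain ⟨x, rfl⟩ := h.red_surj x
    obtain ⟨n, a, ha⟩ := h.surj_aux x
    obtain ⟨Q, hdeg, hQ⟩ := sum_poly (fun i => e.symm (a i))
      (Nat.mul_pos h.dpos (pow_pos hp.out.pos n))
    refine ⟨n, Q, ?_⟩
    rw [hae, h.eval_kap e.toRingHom n _ hdeg, ha]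
    congr 1
    refine Finset.sum_congr rfl fun i hi => ?_
    rw [Finset.mem_range] at hi
    rw [hQ i hi]
    have : e.toRingHom (e.symm (a i)) = a i := e.apply_symm_apply (a i)
    rw [this]
  · intro n Q
    rw [hae, h.eval_kap e.toRingHom n Q (m := Q.natDegree + 1 + d * p ^ n) (by omega),
      h.ker_aux (fun i => e.toRingHom (Q.coeff i)) n _ (by omega)]
    refine forall_congr' fun i => forall_congr' fun _ => ?_
    show e.toRingHom (Q.coeff i) = 0 ↔ _
    exact map_eq_zero_iff _ e.injective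

end Pool.Agent.H22.QA
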