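import Pool.Agent.H22.QA.Resid
import Pool.Agent.H22.QA.TowerA
import Pool.Agent.H55.Tilt.Sem

/-!
Totally ramified towers over the unramified field `UU p`: the truncated ring is a tower over the algebraic closure of
the prime field.
-/

set_option autoImplicit false

namespace Pool.Agent.H22.QA

open Polynomial Pool.Agent.H92.Tilt Pool.Agent.H55.Tilt

variable {p : ℕ} [hp : Fact p.Prime]

/-- A presentation of `K` as the union of the fields `U(π n)`. -/
structure SysU (K : IntermediateField ℚ_[p] (PadicAlgCl p)) (d : ℕ) (π : ℕ → K) : Prop where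
  dpos : 0 < d
  nrm : ∀ n, ‖(π n : PadicAlgCl p)‖ ^ (d * p ^ n) = (p : ℝ)⁻¹
  pow : ∀ n, ‖(π (n + 1) : PadicAlgCl p) ^ p - π n‖ ≤ ‖(π 0 : PadicAlgCl p)‖
  gen : ∀ x : K, ∃ n, ∃ c : ℕ → PadicAlgCl p, (∀ i, c i ∈ UU p) ∧
    (x : PadicAlgCl p) = ∑ i ∈ Finset.range (d * p ^ n), c i * (π n : PadicAlgCl p) ^ i
  mu : ∀ z ∈ Mu p, z ∈ K

section

variable {K : IntermediateField ℚ_[p] (PadicAlgCl p)} {d : ℕ} {π : ℕ → K}

theorem SysU.nrm_pos (h : SysU K d π) (n : ℕ) : 0 < ‖(π n : PadicAlgCl p)‖ := by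
  rcases (norm_nonneg (π n : PadicAlgCl p)).eq_or_lt with h1 | h1
  · have h2 := h.nrm n
    have h3 : 0 < p ^ n := pow_pos hp.out.pos n
    have h4 : d * p ^ n ≠ 0 := (Nat.mul_pos h.dpos h3).ne'
    rw [← h1, zero_pow h4] at h2
    exact absurd h2 (inv_ne_zero p_pos.ne').symm
  · exact h1

theorem SysU.nrm_lt (h : SysU K d π) (n : ℕ) : ‖(π n : PadicAlgCl p)‖ < 1 := by
  by_contra hc
  rw [not_lt] at hc
  have h2 := one_le_pow₀ hc (n := d * p ^ n)
  rw [h.nrm n] at h2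
  exact absurd h2 (not_le.2 (inv_lt_one_of_one_lt₀ one_lt_p))

theorem SysU.nrm_pow (h : SysU K d π) (n : ℕ) :
    ‖(π n : PadicAlgCl p)‖ ^ p ^ n = ‖(π 0 : PadicAlgCl p)‖ := by
  have h0 := h.nrm 0
  have h1 := h.nrm n
  rw [mul_comm, pow_mul] at h1
  rw [pow_zero, mul_one, ← h1] at h0
  exact ((pow_left_inj₀ (norm_nonneg _) (by positivity) h.dpos.ne').1 h0).symm

theorem SysU.p_le (h : SysU K d π) : (p : ℝ)⁻¹ ≤ ‖(π 0 : PadicAlgCl p)‖ := by
  have h0 := h.nrm 0
  rw [pow_zero, mul_one] at h0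
  rw [← h0]
  exact pow_le_of_le_one (norm_nonneg _) (h.nrm_lt 0).le h.dpos.ne'

theorem SysU.mem (h : SysU K d π) (n : ℕ) : π n ∈ OK K := mem_OK.2 (h.nrm_lt n).le

/-- uniformizers as integers -/
def SysU.u (h : SysU K d π) (n : ℕ) : OK K := ⟨π n, h.mem n⟩

/-- the truncated ring -/
abbrev SysU.R (h : SysU K d π) : Type := OK K ⧸ Ideal.span {h.u 0}

/-- the reduction -/
noncomputable def SysU.red (h : SysU K d π) : OK K →+* h.R := Ideal.Quotient.mk _

theorem SysU.red_surj (h : SysU K d π) : Function.Surjective h.red := Ideal.Quotient.mk_surjective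

theorem SysU.red_eq_zero (h : SysU K d π) (x : OK K) :
    h.red x = 0 ↔ ‖((x : K) : PadicAlgCl p)‖ ≤ ‖(π 0 : PadicAlgCl p)‖ := by
  have hne : (π 0 : PadicAlgCl p) ≠ 0 := norm_pos_iff.1 (h.nrm_pos 0)
  have hne' : π 0 ≠ 0 := fun h0 => hne (by rw [h0]; rfl)
  rw [SysU.red, Ideal.Quotient.eq_zero_iff_mem, Ideal.mem_span_singleton]
  constructor
  · rintro ⟨y, rfl⟩
    change ‖((π 0 * (y : K) : K) : PadicAlgCl p)‖ ≤ _
    rw [IntermediateField.coe_mul, norm_mul]
    exact mul_le_of_le_one_right (norm_nonneg _) y.2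
  · intro hx
    refine ⟨⟨(π 0)⁻¹ * (x : K), ?_⟩, ?_⟩
    · rw [mem_OK, IntermediateField.coe_mul, IntermediateField.coe_inv, norm_mul, norm_inv,
        ← div_eq_inv_mul]
      exact (div_le_one (h.nrm_pos 0)).2 hx
    · apply Subtype.ext
      change (x : K) = π 0 * ((π 0)⁻¹ * (x : K))
      rw [mul_inv_cancel_left₀ hne']

theorem SysU.red_eq (h : SysU K d π) (x y : OK K) :
    h.red x = h.red y ↔ ‖((x : K) : PadicAlgCl p) - ((y : K) : PadicAlgCl p)‖ ≤
      ‖(π 0 : PadicAlgCl p)‖ := by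
  rw [← sub_eq_zero, ← map_sub, h.red_eq_zero]
  rfl

/-- The representative of a residue class. -/
noncomputable def tz (a : K0 p) : OC p := (exists_rep a).choose

theorem tz_rd (a : K0 p) : rd p (tz a) = a := (exists_rep a).choose_spec.1

theorem tz_mu (a : K0 p) : (tz a : PadicAlgCl p) = 0 ∨ (tz a : PadicAlgCl p) ∈ Mu p :=
  (exists_rep a).choose_spec.2

theorem tz_UU (a : K0 p) : (tz a : PadicAlgCl p) ∈ UU p := by
  rcases tz_mu a with h | h
  · rw [h]; exact zero_mem _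
  · exact Mu_mem_UU h

theorem tz_norm (a : K0 p) : ‖(tz a : PadicAlgCl p)‖ ≤ 1 := (tz a).2

/-- The representative as an element of the valuation ring of `K`. -/
noncomputable def SysU.tK (h : SysU K d π) (a : K0 p) : OK K :=
  ⟨⟨(tz a : PadicAlgCl p), by
    rcases tz_mu a with h1 | h1
    · rw [h1]; exact zero_mem _
    · exact h.mu _ h1⟩, mem_OK.2 (tz_norm a)⟩

theorem SysU.tK_coe (h : SysU K d π) (a : K0 p) :
    ((h.tK a : K) : PadicAlgCl p) = tz a := rfl

/-- The inclusion of the valuation ring in the algebraic closure. -/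
noncomputable def cf (K : IntermediateField ℚ_[p] (PadicAlgCl p)) : OK K →+* PadicAlgCl p :=
  (algebraMap K (PadicAlgCl p)).comp (OK K).subtype

theorem cf_apply (x : OK K) : cf K x = ((x : K) : PadicAlgCl p) := rfl

/-- Elements of `U` with the same residue have the same class. -/
theorem SysU.red_of_UU (h : SysU K d π) {x y : OK K} (hx : cf K x ∈ UU p)
    (hy : cf K y ∈ UU p) (hxy : ‖cf K x - cf K y‖ < 1) : h.red x = h.red y := by
  rw [h.red_eq]
  exact (UU_lt_one (sub_mem hx hy) hxy).trans h.p_le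

theorem SysU.cf_tK (h : SysU K d π) (a : K0 p) : cf K (h.tK a) = tz a := rfl

theorem tz_lt {a : K0 p} {x : OC p} (hx : rd p x = a) : ‖(tz a : PadicAlgCl p) - x‖ < 1 := by
  rw [← rd_eq, tz_rd, hx]

theorem SysU.kap_one (h : SysU K d π) : h.red (h.tK 1) = 1 := by
  have h1 := tz_lt (a := (1 : K0 p)) (x := 1) (map_one (rd p))
  rw [Subring.coe_one] at h1
  rw [← map_one h.red]
  apply h.red_of_UU
  · rw [h.cf_tK]; exact tz_UU _
  · rw [map_one]; exact one_mem _
  · rw [h.cf_tK, map_one]; exact h1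

theorem SysU.kap_zero (h : SysU K d π) : h.red (h.tK 0) = 0 := by
  have h1 := tz_lt (a := (0 : K0 p)) (x := 0) (map_zero (rd p))
  rw [Subring.coe_zero] at h1
  rw [← map_zero h.red]
  apply h.red_of_UU
  · rw [h.cf_tK]; exact tz_UU _
  · rw [map_zero]; exact zero_mem _
  · rw [h.cf_tK, map_zero]; exact h1

theorem SysU.kap_add (h : SysU K d π) (a b : K0 p) :
    h.red (h.tK (a + b)) = h.red (h.tK a) + h.red (h.tK b) := by
  have h1 := tz_lt (a := a + b) (x := tz a + tz b) (by rw [map_add, tz_rd, tz_rd])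
  rw [Subring.coe_add] at h1
  rw [← map_add h.red]
  apply h.red_of_UU
  · rw [h.cf_tK]; exact tz_UU _
  · rw [map_add, h.cf_tK, h.cf_tK]; exact add_mem (tz_UU a) (tz_UU b)
  · rw [map_add, h.cf_tK, h.cf_tK, h.cf_tK]; exact h1

theorem SysU.kap_mul (h : SysU K d π) (a b : K0 p) :
    h.red (h.tK (a * b)) = h.red (h.tK a) * h.red (h.tK b) := by
  have h1 := tz_lt (a := a * b) (x := tz a * tz b) (by rw [map_mul, tz_rd, tz_rd])
  rw [Subring.coe_mul] at h1
  rw [← map_mul h.red]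
  apply h.red_of_UU
  · rw [h.cf_tK]; exact tz_UU _
  · rw [map_mul, h.cf_tK, h.cf_tK]; exact mul_mem (tz_UU a) (tz_UU b)
  · rw [map_mul, h.cf_tK, h.cf_tK, h.cf_tK]; exact h1

/-- The residue field in the truncated ring. -/
noncomputable def SysU.kap (h : SysU K d π) : K0 p →+* h.R where
  toFun a := h.red (h.tK a)
  map_one' := h.kap_one
  map_zero' := h.kap_zero
  map_add' := h.kap_add
  map_mul' := h.kap_mul

theorem SysU.kap_apply (h : SysU K d π) (a : K0 p) : h.kap a = h.red (h.tK a) := rfl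

theorem tz_eq_zero {a : K0 p} : (tz a : PadicAlgCl p) = 0 ↔ a = 0 := by
  constructor
  · intro h
    rw [← tz_rd a, rd_eq_zero, h, norm_zero]
    exact zero_lt_one
  · intro h
    rcases tz_mu a with h1 | ⟨m, hm, h1⟩
    · exact h1
    · exfalso
      have hm0 : m ≠ 0 := by rintro rfl; exact hm (dvd_zero p)
      have h2 := norm_Mu hm0 h1
      have h3 : rd p (tz a) = 0 := by rw [tz_rd, h]
      rw [rd_eq_zero, h2] at h3
      exact lt_irrefl _ h3

theorem tz_norm_one {a : K0 p} (ha : a ≠ 0) : ‖(tz a : PadicAlgCl p)‖ = 1 := by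
  rcases tz_mu a with h1 | ⟨m, hm, h1⟩
  · exact absurd (tz_eq_zero.1 h1) ha
  · exact norm_Mu (by rintro rfl; exact hm (dvd_zero p)) h1

/-- evaluation of polynomials over the residue field -/
theorem SysU.eval_kap (h : SysU K d π) {𝔽 : Type} [Field 𝔽] (e : 𝔽 →+* K0 p) (n : ℕ) (Q : 𝔽[X])
    {m : ℕ} (hm : Q.natDegree < m) :
    Q.eval₂ (h.kap.comp e) (h.red (h.u n)) =
      h.red (∑ i ∈ Finset.range m, h.tK (e (Q.coeff i)) * h.u n ^ i) := by
  rw [eval₂_eq_sum_range' _ hm, map_sum]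
  refine Finset.sum_congr rfl fun i _ => ?_
  rw [map_mul, map_pow]
  rfl

theorem SysU.coe_sum (h : SysU K d π) (b : ℕ → K0 p) (n m : ℕ) :
    cf K (∑ i ∈ Finset.range m, h.tK (b i) * h.u n ^ i) =
      ∑ i ∈ Finset.range m, (tz (b i) : PadicAlgCl p) * (π n : PadicAlgCl p) ^ i := by
  rw [map_sum]
  refine Finset.sum_congr rfl fun i _ => ?_
  rw [map_mul, map_pow, h.cf_tK]
  rfl

end

end Pool.Agent.H22.QA
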