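import Pool.Agent.H55.Tilt.Sys

/-!
The field `ℚ_p(z)`, `z` a root of unity of order prime to `p`, is unramified: the norms of its nonzero elements are
powers of `p`. Proof: `S = ℤ_p[z]` is a compact ring, `x ^ q ≡ x` modulo `p S` for `q` a suitable power of
`p`, and small elements of `S` are in `p S` by compactness.
-/

set_option autoImplicit false

namespace Pool.Agent.H22.QA

open Polynomial Pool.Agent.H55.Tilt

open scoped IntermediateField

variable {p : ℕ} [hp : Fact p.Prime]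

/-- Roots of unity of order prime to `p`. -/
def Mu (p : ℕ) [Fact p.Prime] : Set (PadicAlgCl p) := {z | ∃ m : ℕ, ¬ p ∣ m ∧ z ^ m = 1}

/-- `ℤ_p → ℚ_p → PadicAlgCl p`. -/
noncomputable def ph (p : ℕ) [Fact p.Prime] : ℤ_[p] →+* PadicAlgCl p :=
  (algebraMap ℚ_[p] (PadicAlgCl p)).comp PadicInt.Coe.ringHom

theorem ph_apply (a : ℤ_[p]) : ph p a = algebraMap ℚ_[p] (PadicAlgCl p) (a : ℚ_[p]) := rfl

theorem norm_ph (a : ℤ_[p]) : ‖ph p a‖ = ‖a‖ := by
  rw [ph_apply, Pool.Agent.H55.Tilt.norm_algebraMap]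
  rfl

theorem norm_p_cl : ‖(p : PadicAlgCl p)‖ = (p : ℝ)⁻¹ := by
  have := Pool.Agent.H55.Tilt.norm_algebraMap (p := p) (p : ℚ_[p])
  rw [map_natCast] at this
  rw [this, Padic.norm_p]

theorem adj_poly (a x : PadicAlgCl p) (hx : x ∈ ℚ_[p]⟮a⟯) :
    ∃ P : Polynomial ℚ_[p], aeval a P = x := by
  have h1 : x ∈ (ℚ_[p]⟮a⟯).toSubalgebra := hx
  rw [IntermediateField.adjoin_simple_toSubalgebra_of_isAlgebraic
    (Algebra.IsAlgebraic.isAlgebraic a), Algebra.adjoin_singleton_eq_range_aeval] at h1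
  obtain ⟨P, hP⟩ := h1
  exact ⟨P, hP⟩

theorem p_ne : (p : PadicAlgCl p) ≠ 0 := by
  have := hp.out.ne_zero
  exact_mod_cast this

/-- The ring `ℤ_p[z]`. -/
noncomputable def SR (z : PadicAlgCl p) : Subring (PadicAlgCl p) :=
  (Polynomial.eval₂RingHom (ph p) z).range

theorem mem_SR {z x : PadicAlgCl p} : x ∈ SR z ↔ ∃ P : ℤ_[p][X], P.eval₂ (ph p) z = x := Iff.rfl

theorem SR_norm_le {z x : PadicAlgCl p} (hz : ‖z‖ ≤ 1) (hx : x ∈ SR z) : ‖x‖ ≤ 1 := by
  obtain ⟨P, rfl⟩ := hx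
  rw [Polynomial.coe_eval₂RingHom, Polynomial.eval₂_eq_sum_range]
  apply IsUltrametricDist.norm_sum_le_of_forall_le_of_nonneg zero_le_one
  intro i _
  rw [norm_mul, norm_pow, norm_ph]
  exact mul_le_one₀ (PadicInt.norm_le_one _) (by positivity) (pow_le_one₀ (norm_nonneg _) hz)

/-- Elements of `ℤ_p` are fixed by powers of Frobenius modulo `p`. -/
theorem int_frob (a : ℤ_[p]) (f : ℕ) : ∃ c : ℤ_[p], a ^ p ^ f = a + p * c := by
  have h1 : PadicInt.toZMod (a ^ p ^ f - a) = 0 := by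
    rw [map_sub, map_pow, ZMod.pow_card_pow, sub_self]
  have h2 : a ^ p ^ f - a ∈ RingHom.ker (PadicInt.toZMod (p := p)) := h1
  rw [PadicInt.ker_toZMod, PadicInt.maximalIdeal_eq_span_p, Ideal.mem_span_singleton] at h2
  obtain ⟨c, hc⟩ := h2
  exact ⟨c, by rw [← hc]; ring⟩

/-- Frobenius congruence in `ℤ_p[z]`. -/
theorem SR_frob {z : PadicAlgCl p} {f : ℕ} (hz : z ^ p ^ f = z) {x : PadicAlgCl p} (hx : x ∈ SR z) :
    ∃ y ∈ SR z, x ^ p ^ f = x + p * y := by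
  obtain ⟨P, rfl⟩ := mem_SR.1 hx
  induction P using Polynomial.induction_on' with
  | add P Q ihP ihQ =>
    obtain ⟨y, hy, hy'⟩ := ihP ⟨P, rfl⟩
    obtain ⟨w, hw, hw'⟩ := ihQ ⟨Q, rfl⟩
    obtain ⟨r, hr⟩ := exists_add_pow_prime_pow_eq hp.out P Q f
    have h1 := congrArg (fun T : ℤ_[p][X] => T.eval₂ (ph p) z) hr
    simp only [Polynomial.eval₂_pow, Polynomial.eval₂_add, Polynomial.eval₂_mul,
      Polynomial.eval₂_natCast] at h1
    refine ⟨y + w + P.eval₂ (ph p) z * Q.eval₂ (ph p) z * r.eval₂ (ph p) z, ?_, ?_⟩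
    · exact add_mem (add_mem hy hw) (mul_mem (mul_mem ⟨P, rfl⟩ ⟨Q, rfl⟩) ⟨r, rfl⟩)
    · rw [Polynomial.eval₂_add, h1, hy', hw']
      ring
  | monomial n a =>
    obtain ⟨c, hc⟩ := int_frob a f
    refine ⟨(Polynomial.monomial n c).eval₂ (ph p) z, ⟨_, rfl⟩, ?_⟩
    rw [Polynomial.eval₂_monomial, Polynomial.eval₂_monomial, mul_pow, ← map_pow, hc, ← pow_mul,
      mul_comm n, pow_mul, hz, map_add, map_mul, map_natCast]
    ring

/-- The parametrisation of `ℤ_p[z]` by a compact group. -/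
noncomputable def par (z : PadicAlgCl p) (m : ℕ) (a : Fin m → ℤ_[p]) : PadicAlgCl p :=
  ∑ i, ph p (a i) * z ^ (i : ℕ)

theorem continuous_ph : Continuous (ph p) := by
  have h1 : Continuous (algebraMap ℚ_[p] (PadicAlgCl p)) := continuous_algebraMap _ _
  exact h1.comp continuous_subtype_val

theorem continuous_par (z : PadicAlgCl p) (m : ℕ) : Continuous (par z m) := by
  unfold par
  refine continuous_finsetSum _ fun i _ => ?_
  exact (continuous_ph.comp (continuous_apply i)).mul continuous_const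

theorem par_mem (z : PadicAlgCl p) (m : ℕ) (a : Fin m → ℤ_[p]) : par z m a ∈ SR z := by
  unfold par
  refine sum_mem fun i _ => ?_
  have h1 : ph p (a i) ∈ SR z := ⟨C (a i), by simp⟩
  have h2 : z ∈ SR z := ⟨X, by simp⟩
  exact mul_mem h1 (pow_mem h2 _)

theorem exists_par {z : PadicAlgCl p} {m : ℕ} (hm : 0 < m) (hz : z ^ m = 1) {x : PadicAlgCl p}
    (hx : x ∈ SR z) : ∃ a, par z m a = x := by
  obtain ⟨P, rfl⟩ := mem_SR.1 hx
  have hq : (X ^ m - 1 : ℤ_[p][X]).Monic := by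
    have := monic_X_pow_sub_C (1 : ℤ_[p]) hm.ne'
    rwa [C_1] at this
  have hdeg : (X ^ m - 1 : ℤ_[p][X]).natDegree = m := by
    have := natDegree_X_pow_sub_C (n := m) (r := (1 : ℤ_[p]))
    rwa [C_1] at this
  have hne : (X ^ m - 1 : ℤ_[p][X]) ≠ 1 := by
    intro h
    rw [h, natDegree_one] at hdeg
    omega
  have hlt := natDegree_modByMonic_lt P hq hne
  rw [hdeg] at hlt
  refine ⟨fun i => (P %ₘ (X ^ m - 1)).coeff i, ?_⟩
  have h1 := congrArg (fun T : ℤ_[p][X] => T.eval₂ (ph p) z) (Polynomial.modByMonic_add_div P (X ^ m - 1))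
  simp only [Polynomial.eval₂_add, Polynomial.eval₂_mul, Polynomial.eval₂_sub, Polynomial.eval₂_pow,
    Polynomial.eval₂_X, Polynomial.eval₂_one, hz, sub_self, zero_mul, add_zero] at h1
  rw [← h1, Polynomial.eval₂_eq_sum_range' _ hlt]
  unfold par
  rw [Finset.sum_range]

/-- Small elements of `ℤ_p[z]` are divisible by `p`. -/
theorem small_dvd {z : PadicAlgCl p} {m : ℕ} (hm : 0 < m) (hz : z ^ m = 1) :
    ∃ δ : ℝ, 0 < δ ∧ ∀ x ∈ SR z, ‖x‖ ≤ δ → ∃ y ∈ SR z, x = p * y := by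
  classical
  set C : Set (Fin m → ℤ_[p]) := {a | ¬ ∃ b, par z m a = p * par z m b} with hC
  have hopen : IsOpen Cᶜ := by
    rw [Metric.isOpen_iff]
    intro a ha
    rw [hC, Set.mem_compl_iff, Set.mem_ofPred_eq, not_not] at ha
    obtain ⟨b, hb⟩ := ha
    refine ⟨1, one_pos, fun a' ha' => ?_⟩
    rw [hC, Set.mem_compl_iff, Set.mem_ofPred_eq, not_not]
    have h1 : ∀ i, ∃ c : ℤ_[p], a' i - a i = p * c := by
      intro i
      have h2 : ‖a' i - a i‖ < 1 := by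
        rw [← dist_eq_norm]
        exact lt_of_le_of_lt (dist_le_pi_dist a' a i) ha'
      rw [← PadicInt.mem_nonunits, ← IsLocalRing.mem_maximalIdeal, PadicInt.maximalIdeal_eq_span_p,
        Ideal.mem_span_singleton] at h2
      exact h2
    choose c hc using h1
    refine ⟨fun i => b i + c i, ?_⟩
    have h3 : par z m a' = par z m a + p * par z m c := by
      unfold par
      rw [Finset.mul_sum, ← Finset.sum_add_distrib]
      refine Finset.sum_congr rfl fun i _ => ?_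
      have h4 : a' i = a i + p * c i := by rw [← hc i]; ring
      rw [h4, map_add, map_mul, map_natCast]
      ring
    have h5 : par z m (fun i => b i + c i) = par z m b + par z m c := by
      unfold par
      rw [← Finset.sum_add_distrib]
      refine Finset.sum_congr rfl fun i _ => ?_
      rw [map_add, add_mul]
    rw [h3, h5, hb]
    ring
  have hcomp : IsCompact C := by
    have : IsClosed C := ⟨hopen⟩
    exact this.isCompact
  by_cases hne : C.Nonempty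
  · obtain ⟨a, ha, hmin⟩ := hcomp.exists_isMinOn hne (continuous_par z m).norm.continuousOn
    have hpos : 0 < ‖par z m a‖ := by
      rw [norm_pos_iff]
      intro h0
      apply ha
      exact ⟨fun _ => 0, by rw [h0]; unfold par; simp⟩
    refine ⟨‖par z m a‖ / 2, by positivity, fun x hx hxle => ?_⟩
    obtain ⟨a', rfl⟩ := exists_par hm hz hx
    by_cases h1 : a' ∈ C
    · have h2 : ‖par z m a‖ ≤ ‖par z m a'‖ := hmin h1
      linarith
    · rw [hC, Set.mem_ofPred_eq, not_not] at h1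
      obtain ⟨b, hb⟩ := h1
      exact ⟨_, par_mem z m b, hb⟩
  · refine ⟨1, one_pos, fun x hx _ => ?_⟩
    obtain ⟨a', rfl⟩ := exists_par hm hz hx
    have h1 : a' ∉ C := fun h => hne ⟨a', h⟩
    rw [hC, Set.mem_ofPred_eq, not_not] at h1
    obtain ⟨b, hb⟩ := h1
    exact ⟨_, par_mem z m b, hb⟩

theorem exists_frob {m : ℕ} (hm : ¬ p ∣ m) {z : PadicAlgCl p} (hz : z ^ m = 1) :
    ∃ f : ℕ, 0 < f ∧ z ^ p ^ f = z := by
  have hcop : Nat.Coprime p m := (Nat.Prime.coprime_iff_not_dvd hp.out).2 hm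
  have hm0 : m ≠ 0 := by rintro rfl; exact hm (dvd_zero p)
  refine ⟨m.totient, Nat.totient_pos.2 (Nat.pos_of_ne_zero hm0), ?_⟩
  have h1 : p ^ m.totient ≡ 1 [MOD m] := Nat.ModEq.pow_totient hcop
  have h2 : 1 ≤ p ^ m.totient := Nat.one_le_pow _ _ hp.out.pos
  obtain ⟨k, hk⟩ := (Nat.modEq_iff_dvd' h2).1 h1.symm
  have h3 : p ^ m.totient = m * k + 1 := by omega
  rw [h3, pow_succ, pow_mul, hz, one_pow, one_mul]

theorem norm_Mu {m : ℕ} (hm : m ≠ 0) {z : PadicAlgCl p} (hz : z ^ m = 1) : ‖z‖ = 1 := by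
  have h2 : ‖z‖ ^ m = 1 := by rw [← norm_pow, hz, norm_one]
  exact (pow_eq_one_iff_of_nonneg (norm_nonneg _) hm).1 h2

/-- An element of `ℤ_p[z]` of norm smaller than one is divisible by `p`. -/
theorem lt_one_dvd {m : ℕ} (hm : ¬ p ∣ m) {z : PadicAlgCl p} (hz : z ^ m = 1) {x : PadicAlgCl p}
    (hx : x ∈ SR z) (hx1 : ‖x‖ < 1) : ∃ y ∈ SR z, x = p * y := by
  have hm0 : m ≠ 0 := by rintro rfl; exact hm (dvd_zero p)
  obtain ⟨δ, hδ, hsm⟩ := small_dvd (Nat.pos_of_ne_zero hm0) hz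
  obtain ⟨f, hf, hzf⟩ := exists_frob hm hz
  have hzj : ∀ j, z ^ p ^ (f * j) = z := by
    intro j
    induction j with
    | zero => simp
    | succ j ih => rw [mul_add, mul_one, pow_add, pow_mul, ih, hzf]
  obtain ⟨n, hn⟩ := exists_pow_lt_of_lt_one hδ hx1
  have hge : n ≤ p ^ (f * n) := by
    have h1 : n < p ^ n := Nat.lt_pow_self hp.out.one_lt
    have h2 : p ^ n ≤ p ^ (f * n) := Nat.pow_le_pow_right hp.out.pos (Nat.le_mul_of_pos_left _ hf)
    omega
  have hle : ‖x ^ p ^ (f * n)‖ ≤ δ := by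
    rw [norm_pow]
    exact (pow_le_pow_of_le_one (norm_nonneg _) hx1.le hge).trans hn.le
  obtain ⟨y, hy, hy'⟩ := hsm _ (pow_mem hx _) hle
  obtain ⟨w, hw, hw'⟩ := SR_frob (hzj n) hx
  refine ⟨y - w, sub_mem hy hw, ?_⟩
  have h3 : x + p * w = p * y := by rw [← hw', hy']
  linear_combination h3

theorem SR_norm {m : ℕ} (hm : ¬ p ∣ m) {z : PadicAlgCl p} (hz : z ^ m = 1) {x : PadicAlgCl p}
    (hx : x ∈ SR z) (hx0 : x ≠ 0) : ∃ n : ℕ, ‖x‖ = (p : ℝ) ^ (-(n : ℤ)) := by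
  have hm0 : m ≠ 0 := by rintro rfl; exact hm (dvd_zero p)
  have hp1 : (1 : ℝ) < p := one_lt_p
  -- induction on an upper bound for the number of divisions
  have key : ∀ k : ℕ, ∀ x ∈ SR z, x ≠ 0 → (p : ℝ) ^ (-(k : ℤ)) ≤ ‖x‖ →
      ∃ n : ℕ, ‖x‖ = (p : ℝ) ^ (-(n : ℤ)) := by
    intro k
    induction k with
    | zero =>
      intro x hx _ hk
      refine ⟨0, le_antisymm ?_ hk⟩
      simpa using SR_norm_le (norm_Mu hm0 hz).le hx
    | succ k ih =>
      intro x hx hx0 hk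
      rcases (SR_norm_le (norm_Mu hm0 hz).le hx).eq_or_lt with h1 | h1
      · exact ⟨0, by simpa using h1⟩
      · obtain ⟨y, hy, rfl⟩ := lt_one_dvd hm hz hx h1
        have hy0 : y ≠ 0 := by rintro rfl; simp at hx0
        have e : ‖(p : PadicAlgCl p) * y‖ = (p : ℝ)⁻¹ * ‖y‖ := by rw [norm_mul, norm_p_cl]
        rw [e] at hk
        have e2 : (p : ℝ) ^ (-((k + 1 : ℕ) : ℤ)) = (p : ℝ)⁻¹ * (p : ℝ) ^ (-(k : ℤ)) := by
          rw [← zpow_neg_one, ← zpow_add₀ (by positivity)]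
          congr 1
          push_cast
          ring
        rw [e2] at hk
        obtain ⟨n, hn⟩ := ih y hy hy0 (le_of_mul_le_mul_left hk (by positivity))
        refine ⟨n + 1, ?_⟩
        rw [e, hn, ← zpow_neg_one, ← zpow_add₀ (by positivity)]
        congr 1
        push_cast
        ring
  have hpos : 0 < ‖x‖ := norm_pos_iff.2 hx0
  obtain ⟨k, hk⟩ := exists_pow_lt_of_lt_one hpos (inv_lt_one_of_one_lt₀ hp1)
  refine key k x hx hx0 ?_
  rw [zpow_neg, zpow_natCast, ← inv_pow]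
  exact hk.le

/-- The norms of the elements of `ℚ_p(z)` are powers of `p`. -/
theorem unram_norm {m : ℕ} (hm : ¬ p ∣ m) {z : PadicAlgCl p} (hz : z ^ m = 1) {x : PadicAlgCl p}
    (hx : x ∈ ℚ_[p]⟮z⟯) (hx0 : x ≠ 0) : ∃ n : ℤ, ‖x‖ = (p : ℝ) ^ n := by
  obtain ⟨P, rfl⟩ := adj_poly z x hx
  have hp0 : (0 : ℝ) < p := p_pos
  have hp1 : (1 : ℝ) < p := one_lt_p
  -- clear denominators
  obtain ⟨N, hN⟩ : ∃ N : ℕ, ∀ i, ‖(p : ℚ_[p]) ^ N * P.coeff i‖ ≤ 1 := by
    have h1 : ∀ i, ∃ N : ℕ, ∀ M, N ≤ M → ‖(p : ℚ_[p]) ^ M * P.coeff i‖ ≤ 1 := by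
      intro i
      by_cases h0 : P.coeff i = 0
      · exact ⟨0, fun M _ => by rw [h0]; simp⟩
      · have hpos : 0 < ‖P.coeff i‖ := norm_pos_iff.2 h0
        obtain ⟨k, hk⟩ := exists_pow_lt_of_lt_one (inv_pos.2 hpos) (inv_lt_one_of_one_lt₀ hp1)
        refine ⟨k, fun M hM => ?_⟩
        rw [norm_mul, norm_pow, Padic.norm_p]
        have h2 : ((p : ℝ)⁻¹) ^ M ≤ ((p : ℝ)⁻¹) ^ k :=
          pow_le_pow_of_le_one (by positivity) (inv_le_one_of_one_le₀ hp1.le) hM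
        calc ((p : ℝ)⁻¹) ^ M * ‖P.coeff i‖ ≤ (‖P.coeff i‖)⁻¹ * ‖P.coeff i‖ :=
              mul_le_mul_of_nonneg_right (h2.trans hk.le) hpos.le
          _ = 1 := inv_mul_cancel₀ hpos.ne'
    choose f hf using h1
    refine ⟨∑ i ∈ Finset.range (P.natDegree + 1), f i, fun i => ?_⟩
    by_cases hi : i ∈ Finset.range (P.natDegree + 1)
    · exact hf i _ (Finset.single_le_sum (fun _ _ => Nat.zero_le _) hi)
    · rw [Finset.mem_range, not_lt] at hi
      rw [Polynomial.coeff_eq_zero_of_natDegree_lt (by omega)]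
      simp
  let Q : ℤ_[p][X] := ∑ i ∈ Finset.range (P.natDegree + 1),
    Polynomial.monomial i (⟨(p : ℚ_[p]) ^ N * P.coeff i, hN i⟩ : ℤ_[p])
  have hQ : Q.eval₂ (ph p) z = (p : PadicAlgCl p) ^ N * aeval z P := by
    rw [Polynomial.aeval_eq_sum_range, Finset.mul_sum]
    simp only [Q, Polynomial.eval₂_finsetSum, Polynomial.eval₂_monomial]
    refine Finset.sum_congr rfl fun i _ => ?_
    rw [ph_apply]
    simp only [map_mul, map_pow, map_natCast]
    rw [Algebra.smul_def]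
    ring
  have hne : (p : PadicAlgCl p) ^ N * aeval z P ≠ 0 := mul_ne_zero (pow_ne_zero _ p_ne) hx0
  obtain ⟨n, hn⟩ := SR_norm hm hz (x := (p : PadicAlgCl p) ^ N * aeval z P) ⟨Q, hQ⟩ hne
  rw [norm_mul, norm_pow, norm_p_cl] at hn
  refine ⟨N - n, ?_⟩
  have h3 : ‖aeval z P‖ = (p : ℝ) ^ N * ((p : ℝ) ^ (-(n : ℤ))) := by
    rw [← hn, ← mul_assoc, ← mul_pow, mul_inv_cancel₀ hp0.ne', one_pow, one_mul]
  rw [h3, ← zpow_natCast, ← zpow_add₀ hp0.ne']
  rfl

end Pool.Agent.H22.QA
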