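import Pool.Agent.H22.QA.UnrA

/-!
The field `UU p` generated by the roots of unity of order prime to `p`: norms, Teichmüller representatives.
The field `KMu p` generated by all roots of unity.
-/

set_option autoImplicit false

namespace Pool.Agent.H22.QA

open Polynomial Filter Topology Pool.Agent.H55.Tilt

open scoped IntermediateField

variable {p : ℕ} [hp : Fact p.Prime]

/-- The field generated by the roots of unity of order prime to `p`. -/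
noncomputable def UU (p : ℕ) [Fact p.Prime] : IntermediateField ℚ_[p] (PadicAlgCl p) :=
  IntermediateField.adjoin ℚ_[p] (Mu p)

/-- The field generated by all roots of unity. -/
noncomputable def KMu (p : ℕ) [Fact p.Prime] : IntermediateField ℚ_[p] (PadicAlgCl p) :=
  IntermediateField.adjoin ℚ_[p] {z | ∃ n : ℕ, 0 < n ∧ z ^ n = 1}

theorem exists_prim_root (n : ℕ) (hn : n ≠ 0) : ∃ z : PadicAlgCl p, IsPrimitiveRoot z n := by
  obtain ⟨z, hz⟩ := IsAlgClosed.exists_root (cyclotomic n (PadicAlgCl p)) (by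
    rw [degree_cyclotomic]
    have : 0 < n.totient := Nat.totient_pos.2 (Nat.pos_of_ne_zero hn)
    exact_mod_cast this.ne')
  have : NeZero ((n : ℕ) : PadicAlgCl p) := ⟨by exact_mod_cast hn⟩
  rw [isRoot_cyclotomic_iff] at hz
  exact ⟨z, hz⟩

theorem mem_adj_of_pow {m : ℕ} (hm : m ≠ 0) {w z : PadicAlgCl p} (hw : IsPrimitiveRoot w m)
    (hz : z ^ m = 1) : z ∈ ℚ_[p]⟮w⟯ := by
  have : NeZero m := ⟨hm⟩
  obtain ⟨i, _, rfl⟩ := hw.eq_pow_of_pow_eq_one hz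
  exact pow_mem (IntermediateField.mem_adjoin_simple_self ℚ_[p] w) i

theorem not_dvd_mul {a b : ℕ} (ha : ¬ p ∣ a) (hb : ¬ p ∣ b) : ¬ p ∣ a * b := fun h =>
  ((Nat.Prime.dvd_mul hp.out).1 h).elim ha hb

theorem UU_simple {x : PadicAlgCl p} (hx : x ∈ UU p) : ∃ m : ℕ, ¬ p ∣ m ∧
    ∃ z : PadicAlgCl p, IsPrimitiveRoot z m ∧ x ∈ ℚ_[p]⟮z⟯ := by
  have key : ∀ m m' : ℕ, ¬ p ∣ m → ¬ p ∣ m' → ∀ z z' : PadicAlgCl p, IsPrimitiveRoot z m →
      IsPrimitiveRoot z' m' → ∃ w, IsPrimitiveRoot w (m * m') ∧ ℚ_[p]⟮z⟯ ≤ ℚ_[p]⟮w⟯ ∧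
        ℚ_[p]⟮z'⟯ ≤ ℚ_[p]⟮w⟯ := by
    intro m m' hm hm' z z' hz hz'
    have h0 : m * m' ≠ 0 := by
      intro h
      exact not_dvd_mul hm hm' (by rw [h]; exact dvd_zero p)
    obtain ⟨w, hw⟩ := exists_prim_root (p := p) (m * m') h0
    refine ⟨w, hw, ?_, ?_⟩
    · rw [IntermediateField.adjoin_simple_le_iff]
      exact mem_adj_of_pow h0 hw (by rw [pow_mul, hz.pow_eq_one, one_pow])
    · rw [IntermediateField.adjoin_simple_le_iff]
      exact mem_adj_of_pow h0 hw (by rw [mul_comm, pow_mul, hz'.pow_eq_one, one_pow])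
  induction hx using IntermediateField.adjoin_induction with
  | mem z hz =>
    obtain ⟨m, hm, hz⟩ := hz
    have h0 : m ≠ 0 := by rintro rfl; exact hm (dvd_zero p)
    obtain ⟨w, hw⟩ := exists_prim_root (p := p) m h0
    exact ⟨m, hm, w, hw, mem_adj_of_pow h0 hw hz⟩
  | algebraMap x =>
    obtain ⟨w, hw⟩ := exists_prim_root (p := p) 1 one_ne_zero
    exact ⟨1, hp.out.one_lt.ne' ∘ Nat.dvd_one.1, w, hw, IntermediateField.algebraMap_mem _ x⟩
  | add x y _ _ hx hy =>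
    obtain ⟨m, hm, z, hz, hx⟩ := hx
    obtain ⟨m', hm', z', hz', hy⟩ := hy
    obtain ⟨w, hw, h1, h2⟩ := key m m' hm hm' z z' hz hz'
    exact ⟨_, not_dvd_mul hm hm', w, hw, add_mem (h1 hx) (h2 hy)⟩
  | inv x _ hx =>
    obtain ⟨m, hm, z, hz, hx⟩ := hx
    exact ⟨m, hm, z, hz, inv_mem hx⟩
  | mul x y _ _ hx hy =>
    obtain ⟨m, hm, z, hz, hx⟩ := hx
    obtain ⟨m', hm', z', hz', hy⟩ := hy
    obtain ⟨w, hw, h1, h2⟩ := key m m' hm hm' z z' hz hz'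
    exact ⟨_, not_dvd_mul hm hm', w, hw, mul_mem (h1 hx) (h2 hy)⟩

theorem UU_norm {x : PadicAlgCl p} (hx : x ∈ UU p) (hx0 : x ≠ 0) :
    ∃ n : ℤ, ‖x‖ = (p : ℝ) ^ n := by
  obtain ⟨m, hm, z, hz, hxz⟩ := UU_simple hx
  exact unram_norm hm hz.pow_eq_one hxz hx0

theorem UU_lt_one {x : PadicAlgCl p} (hx : x ∈ UU p) (h : ‖x‖ < 1) : ‖x‖ ≤ (p : ℝ)⁻¹ := by
  by_cases hx0 : x = 0
  · rw [hx0, norm_zero]
    exact (inv_pos.2 p_pos).le
  · obtain ⟨n, hn⟩ := UU_norm hx hx0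
    rw [hn] at h ⊢
    have h1 : n < 0 := by
      by_contra hc
      rw [not_lt] at hc
      exact absurd h (not_lt.2 (one_le_zpow₀ one_lt_p.le hc))
    rw [← zpow_neg_one]
    exact zpow_le_zpow_right₀ one_lt_p.le (by omega)

theorem UU_le_one {x : PadicAlgCl p} (hx : x ∈ UU p) (h : ‖x‖ < p) : ‖x‖ ≤ 1 := by
  by_cases hx0 : x = 0
  · rw [hx0, norm_zero]
    exact zero_le_one
  · obtain ⟨n, hn⟩ := UU_norm hx hx0
    rw [hn] at h ⊢
    have h1 : n < 1 := by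
      by_contra hc
      rw [not_lt] at hc
      have := zpow_le_zpow_right₀ (one_lt_p (p := p)).le hc
      rw [zpow_one] at this
      exact absurd h (not_lt.2 this)
    exact zpow_le_one_of_nonpos₀ one_lt_p.le (by omega)

/-- the unit ball -/
def OC (p : ℕ) [Fact p.Prime] : Subring (PadicAlgCl p) where
  carrier := {x | ‖x‖ ≤ 1}
  mul_mem' := by
    intro a b ha hb
    show ‖a * b‖ ≤ 1
    rw [norm_mul]
    exact mul_le_one₀ ha (norm_nonneg _) hb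
  one_mem' := by
    show ‖(1 : PadicAlgCl p)‖ ≤ 1
    rw [norm_one]
  add_mem' := by
    intro a b ha hb
    exact (PadicAlgCl.isNonarchimedean p _ _).trans (max_le ha hb)
  zero_mem' := by
    show ‖(0 : PadicAlgCl p)‖ ≤ 1
    rw [norm_zero]
    exact zero_le_one
  neg_mem' := by
    intro a ha
    show ‖-a‖ ≤ 1
    rw [norm_neg]
    exact ha

theorem mem_OC {x : PadicAlgCl p} : x ∈ OC p ↔ ‖x‖ ≤ 1 := Iff.rfl

/-- If `y ^ (p ^ s)` is congruent to one then so is `y`. -/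
theorem cong_one_of_pow {y : PadicAlgCl p} (hy : ‖y‖ ≤ 1) {s : ℕ} (h : ‖y ^ p ^ s - 1‖ < 1) :
    ‖y - 1‖ < 1 := by
  let w : OC p := ⟨y - 1, sub_mem (mem_OC.2 hy) (one_mem _)⟩
  obtain ⟨r, hr⟩ := exists_add_pow_prime_pow_eq hp.out (1 : OC p) w s
  have h1 := congrArg (fun t : OC p => (t : PadicAlgCl p)) hr
  simp only [Subring.coe_add, Subring.coe_mul, Subring.coe_pow, Subring.coe_one] at h1
  have hw : (w : PadicAlgCl p) = y - 1 := rfl
  rw [hw, add_sub_cancel, one_pow, mul_one] at h1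
  have h2 : (y - 1) ^ p ^ s = (y ^ p ^ s - 1) - ((p : OC p) : PadicAlgCl p) * (y - 1) * r := by
    rw [h1]; ring
  have h3 : ‖(y - 1) ^ p ^ s‖ < 1 := by
    rw [h2]
    rw [sub_eq_add_neg]
    refine lt_of_le_of_lt (PadicAlgCl.isNonarchimedean p _ _) (max_lt h ?_)
    rw [norm_neg]
    have h4 : ((p : OC p) : PadicAlgCl p) = (p : PadicAlgCl p) := by simp
    rw [h4, norm_mul, norm_mul, norm_p_cl]
    have h5 : ‖y - 1‖ ≤ 1 := w.2
    have h6 : ‖(r : PadicAlgCl p)‖ ≤ 1 := r.2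
    have h7 : (p : ℝ)⁻¹ < 1 := inv_lt_one_of_one_lt₀ one_lt_p
    have h8 : 0 ≤ (p : ℝ)⁻¹ := (inv_pos.2 p_pos).le
    calc (p : ℝ)⁻¹ * ‖y - 1‖ * ‖(r : PadicAlgCl p)‖ ≤ (p : ℝ)⁻¹ * 1 * 1 := by
          apply mul_le_mul (mul_le_mul_of_nonneg_left h5 h8) h6 (norm_nonneg _) (by positivity)
      _ < 1 := by simpa using h7
  rw [norm_pow] at h3
  by_contra hc
  rw [not_lt] at hc
  exact absurd h3 (not_lt.2 (one_le_pow₀ hc))

/-- A power of a unit is congruent to one. -/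
theorem exists_pow_cong (x : PadicAlgCl p) (hx : ‖x‖ = 1) : ∃ n : ℕ, 0 < n ∧ ‖x ^ n - 1‖ < 1 := by
  have hfin : FiniteDimensional ℚ_[p] ℚ_[p]⟮x⟯ :=
    IntermediateField.adjoin.finiteDimensional (Algebra.IsAlgebraic.isAlgebraic x).isIntegral
  let V : Submodule ℚ_[p] (PadicAlgCl p) := (ℚ_[p]⟮x⟯).toSubalgebra.toSubmodule
  have hV : FiniteDimensional ℚ_[p] V := hfin
  have hprop : ProperSpace V := FiniteDimensional.proper ℚ_[p] V
  let u : ℕ → V := fun n => ⟨x ^ n, pow_mem (IntermediateField.mem_adjoin_simple_self ℚ_[p] x) n⟩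
  have hu : ∀ n, u n ∈ Metric.closedBall (0 : V) 1 := by
    intro n
    rw [mem_closedBall_zero_iff]
    show ‖x ^ n‖ ≤ 1
    rw [norm_pow, hx, one_pow]
  obtain ⟨a, -, φ, hφ, hlim⟩ := (isCompact_closedBall (0 : V) 1).tendsto_subseq hu
  have hc := hlim.cauchySeq
  rw [Metric.cauchySeq_iff] at hc
  obtain ⟨N, hN⟩ := hc 1 one_pos
  have h1 := hN (N + 1) (by omega) N le_rfl
  have hlt : φ N < φ (N + 1) := hφ (Nat.lt_succ_self N)
  obtain ⟨n, hn⟩ := Nat.exists_eq_add_of_lt hlt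
  refine ⟨n + 1, by omega, ?_⟩
  have h2 : ‖x ^ φ (N + 1) - x ^ φ N‖ < 1 := by
    rw [dist_eq_norm] at h1
    exact h1
  have h3 : x ^ φ (N + 1) - x ^ φ N = x ^ φ N * (x ^ (n + 1) - 1) := by
    rw [hn]; ring
  rw [h3, norm_mul, norm_pow, hx, one_pow, one_mul] at h2
  exact h2

/-- Every unit is congruent to a root of unity of order prime to `p`. -/
theorem exists_teich {x : PadicAlgCl p} (hx : ‖x‖ = 1) : ∃ z ∈ Mu p, ‖x - z‖ < 1 := by
  obtain ⟨n, hn, h1⟩ := exists_pow_cong x hx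
  obtain ⟨s, m, hm, rfl⟩ := Nat.exists_eq_pow_mul_and_not_dvd hn.ne' p hp.out.one_lt.ne'
  have hm0 : m ≠ 0 := by rintro rfl; exact hm (dvd_zero p)
  have h2 : ‖x ^ m - 1‖ < 1 := by
    apply cong_one_of_pow (s := s)
    · rw [norm_pow, hx, one_pow]
    · rw [← pow_mul, mul_comm]
      exact h1
  obtain ⟨w, hw⟩ := exists_prim_root (p := p) m hm0
  have h3 := X_pow_sub_one_eq_prod (Nat.pos_of_ne_zero hm0) hw
  have h4 := congrArg (eval x) h3
  rw [eval_prod] at h4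
  simp only [eval_sub, eval_pow, eval_X, eval_one, eval_C] at h4
  by_contra hcon
  push Not at hcon
  have h5 : 1 ≤ ‖x ^ m - 1‖ := by
    rw [h4, norm_prod]
    have h6 : ∀ z ∈ nthRootsFinset m (1 : PadicAlgCl p), (1 : ℝ) ≤ ‖x - z‖ := by
      intro z hz
      rw [mem_nthRootsFinset (Nat.pos_of_ne_zero hm0)] at hz
      exact hcon z ⟨m, hm, hz⟩
    calc (1 : ℝ) = ∏ _z ∈ nthRootsFinset m (1 : PadicAlgCl p), (1 : ℝ) := by simp
      _ ≤ _ := Finset.prod_le_prod (fun _ _ => zero_le_one) h6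
  linarith

/-- Roots of unity of order prime to `p` are not congruent. -/
theorem Mu_inj {m : ℕ} (hm : ¬ p ∣ m) {z w : PadicAlgCl p} (hz : z ^ m = 1) (hw : w ^ m = 1)
    (h : ‖z - w‖ < 1) : z = w := by
  have hm0 : m ≠ 0 := by rintro rfl; exact hm (dvd_zero p)
  have hw1 := norm_Mu hm0 hw
  have hw0 : w ≠ 0 := by rintro rfl; simp at hw1
  set ξ := z / w with hξ
  have hξm : ξ ^ m = 1 := by rw [hξ, div_pow, hz, hw, div_one]
  have hξ1 : ‖ξ‖ = 1 := norm_Mu hm0 hξm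
  have hξ2 : ‖1 - ξ‖ < 1 := by
    have : 1 - ξ = -((z - w) / w) := by rw [hξ]; field_simp; ring
    rw [this, norm_neg, norm_div, hw1, div_one]
    exact h
  by_contra hne
  have hξ3 : ξ ≠ 1 := by
    intro h1
    apply hne
    rw [hξ, div_eq_one_iff_eq hw0] at h1
    exact h1
  have hsum : ∑ i ∈ Finset.range m, ξ ^ i = 0 := by
    have h1 := mul_geom_sum ξ m
    rw [hξm, sub_self] at h1
    exact (mul_eq_zero.1 h1).resolve_left (sub_ne_zero.2 hξ3)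
  have h1 : (m : PadicAlgCl p) = ∑ i ∈ Finset.range m, (1 - ξ ^ i) := by
    rw [Finset.sum_sub_distrib, hsum, sub_zero]
    simp
  have h2 : ‖(m : PadicAlgCl p)‖ ≤ ‖1 - ξ‖ := by
    rw [h1]
    apply IsUltrametricDist.norm_sum_le_of_forall_le_of_nonneg (norm_nonneg _)
    intro i _
    have h3 : 1 - ξ ^ i = (1 - ξ) * ∑ j ∈ Finset.range i, ξ ^ j := (mul_neg_geom_sum ξ i).symm
    rw [h3, norm_mul]
    apply mul_le_of_le_one_right (norm_nonneg _)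
    apply IsUltrametricDist.norm_sum_le_of_forall_le_of_nonneg zero_le_one
    intro j _
    rw [norm_pow, hξ1, one_pow]
  have h4 : ‖(m : PadicAlgCl p)‖ = ‖((m : ℤ) : ℚ_[p])‖ := by
    rw [← Pool.Agent.H55.Tilt.norm_algebraMap]
    simp
  rw [h4] at h2
  have h5 : ‖((m : ℤ) : ℚ_[p])‖ < 1 := lt_of_le_of_lt h2 hξ2
  rw [norm_int_lt_one_iff] at h5
  exact hm (by exact_mod_cast h5)

theorem Mu_mem_UU {z : PadicAlgCl p} (hz : z ∈ Mu p) : z ∈ UU p :=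
  IntermediateField.subset_adjoin _ _ hz

theorem UU_teich {x : PadicAlgCl p} (hx : x ∈ UU p) (h : ‖x‖ ≤ 1) :
    ∃ z, (z = 0 ∨ z ∈ Mu p) ∧ ‖x - z‖ ≤ (p : ℝ)⁻¹ := by
  rcases h.eq_or_lt with h1 | h1
  · obtain ⟨z, hz, h2⟩ := exists_teich h1
    exact ⟨z, Or.inr hz, UU_lt_one (sub_mem hx (Mu_mem_UU hz)) h2⟩
  · exact ⟨0, Or.inl rfl, by rw [sub_zero]; exact UU_lt_one hx h1⟩

theorem Mu_mem_KMu {z : PadicAlgCl p} (hz : z ∈ Mu p) : z ∈ KMu p := by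
  obtain ⟨m, hm, hz⟩ := hz
  have hm0 : m ≠ 0 := by rintro rfl; exact hm (dvd_zero p)
  exact IntermediateField.subset_adjoin _ _ ⟨m, Nat.pos_of_ne_zero hm0, hz⟩

section terms

theorem term_zpow (π : PadicAlgCl p) (m : ℕ) (hπ : ‖π‖ ^ m = (p : ℝ)⁻¹) {a : PadicAlgCl p} {s : ℤ}
    (ha : ‖a‖ = (p : ℝ) ^ s) (i : ℕ) : (‖a‖ * ‖π‖ ^ i) ^ m = (p : ℝ) ^ (s * m - i : ℤ) := by
  rw [mul_pow, ← pow_mul, mul_comm i m, pow_mul, hπ, ha]
  rw [← zpow_natCast, ← zpow_mul, inv_pow, ← zpow_natCast, ← zpow_neg, ← zpow_add₀ p_pos.ne']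
  congr 1

theorem termU_ne (π : PadicAlgCl p) (m : ℕ) (hπ : ‖π‖ ^ m = (p : ℝ)⁻¹) {a b : PadicAlgCl p}
    (ha : a ∈ UU p) (hb : b ∈ UU p)
    (ha0 : a ≠ 0) (hb0 : b ≠ 0) {i j : ℕ} (hi : i < m) (hj : j < m) (hij : i ≠ j) :
    ‖a‖ * ‖π‖ ^ i ≠ ‖b‖ * ‖π‖ ^ j := by
  intro h
  obtain ⟨s, hs⟩ := UU_norm ha ha0
  obtain ⟨t, ht⟩ := UU_norm hb hb0
  have h1 : (‖a‖ * ‖π‖ ^ i) ^ m = (‖b‖ * ‖π‖ ^ j) ^ m := by rw [h]
  rw [term_zpow π m hπ hs i, term_zpow π m hπ ht j] at h1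
  have h2 := zpow_right_injective₀ p_pos (one_lt_p (p := p)).ne' h1
  have h2' : s * m - i = t * m - j := h2
  have h3 : (m : ℤ) * (t - s) = j - i := by linarith
  have h4 : (m : ℤ) ∣ (j : ℤ) - i := ⟨_, h3.symm⟩
  have h5 : |(j : ℤ) - i| < m := by
    rw [abs_lt]; omega
  have h6 := Int.eq_zero_of_abs_lt_dvd h4 h5
  omega

/-- norms of the terms are bounded by the norm of the sum -/
theorem termU_le (π : PadicAlgCl p) (m : ℕ) (hπ : ‖π‖ ^ m = (p : ℝ)⁻¹) (c : ℕ → PadicAlgCl p)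
    (hcU : ∀ i, c i ∈ UU p) {i : ℕ} (hi : i < m) :
    ‖c i‖ * ‖π‖ ^ i ≤ ‖∑ j ∈ Finset.range m, c j * π ^ j‖ := by
  have hterm : ∀ j, ‖c j * π ^ j‖ = ‖c j‖ * ‖π‖ ^ j := by
    intro j
    rw [norm_mul, norm_pow]
  have hπ0 : 0 < ‖π‖ := by
    rcases (norm_nonneg π).eq_or_lt with h | h
    · rw [← h, zero_pow (by omega)] at hπ
      exact absurd hπ (inv_ne_zero p_pos.ne').symm
    · exact h
  obtain ⟨k, hk, hmax⟩ := Finset.exists_max_image (Finset.range m) (fun j => ‖c j‖ * ‖π‖ ^ j)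
    ⟨i, Finset.mem_range.2 hi⟩
  by_cases hck : c k = 0
  · have := hmax i (Finset.mem_range.2 hi)
    simp only [hck, norm_zero, zero_mul] at this
    exact this.trans (norm_nonneg _)
  · have hlt : ∀ j ∈ Finset.range m, j ≠ k → ‖c j * π ^ j‖ < ‖c k * π ^ k‖ := by
      intro j hj hjk
      rw [hterm, hterm]
      refine lt_of_le_of_ne (hmax j hj) ?_
      by_cases hcj : c j = 0
      · rw [hcj, norm_zero, zero_mul]
        exact (mul_pos (norm_pos_iff.2 hck) (pow_pos hπ0 k)).ne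
      · exact termU_ne π m hπ (hcU j) (hcU k) hcj hck (Finset.mem_range.1 hj) (Finset.mem_range.1 hk) hjk
    have heq := IsNonarchimedean.apply_sum_eq_of_lt (f := (norm : PadicAlgCl p → ℝ))
      (PadicAlgCl.isNonarchimedean p) (fun a => (norm_neg a).symm) hk hlt
    rw [heq, hterm]
    exact hmax i (Finset.mem_range.2 hi)

end terms

end Pool.Agent.H22.QA
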